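import Pool.Agent.helper45.BN.FamA
import Pool.Agent.helper73.BN.Zonal
import Pool.Agent.helper73.BN.Moments
import Pool.Agent.helper24.BN.Conf
import Pool.Agent.helper52.BN.Ode
import Pool.Agent.helper74.BN.Sup
import Pool.Agent.helper38.BN.Eig
import Pool.Agent.helper95.BN.LL

set_option autoImplicit false

/-!
# MP_94a57f_an, module C6: the branch of solutions
-/

open MeasureTheory Filter Topology Set Metric
open scoped ContDiff Gradient RealInnerProductSpace ENNReal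

noncomputable section

namespace Pool.Agent.helper13.BN

variable {N : ℕ}

theorem weak_congr_on {Ω : Set (E N)} {w : LV N} {g g' : E N → ℝ}
    (h : ∀ᵐ x, x ∈ Ω → g x = g' x) (hw : Weak Ω w g) : Weak Ω w g' := by
  refine ⟨hw.1, fun φ W hφ hW => ?_⟩
  rw [hw.2 φ W hφ hW]
  refine integral_congr_ae ?_
  filter_upwards [h] with x hx
  by_cases hxo : x ∈ Ω
  · rw [hx hxo]
  · have : φ x = 0 := image_eq_zero_of_notMem_tsupport fun h' => hxo (hφ.2.2 h')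
    rw [this, mul_zero, mul_zero]

theorem Cr.rho_pos (D : Cr N) (i : ℕ) : 0 < D.rho i := Real.exp_pos _

theorem Cr.rho_lt (D : Cr N) (i : ℕ) : D.rho i < 1 := by
  unfold Cr.rho
  rw [Real.exp_lt_one_iff]
  linarith [D.posL i]

theorem F1_spec (hN : 3 ≤ N) (D : Cr N) {e : E N} (he : ‖e‖ = 1) (i : ℕ) :
    D.F1 e i ∈ XS e (D.rho i) ∧ fn (D.F1 e i) =ᵐ[volume] (D.Om i).indicator (D.f1 e i) ∧
      Weak (D.Om i) (D.F1 e i) (fun x => D.lam1 i * D.f1 e i x) := by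
  have h0 : yf (((0 : ℕ) : ℝ) + cc N) (D.lam1 i) (D.Ls i) = 0 := by
    rw [Nat.cast_zero, zero_add]; exact D.z1 i
  have h := eig_spec hN he (D.posL i) h0
  rw [Nat.cast_zero, zero_add] at h
  exact h

theorem F2_spec (hN : 3 ≤ N) (D : Cr N) {e : E N} (he : ‖e‖ = 1) (i : ℕ) :
    D.F2 e i ∈ XS e (D.rho i) ∧ fn (D.F2 e i) =ᵐ[volume] (D.Om i).indicator (D.f2 e i) ∧
      Weak (D.Om i) (D.F2 e i) (fun x => D.lam2 i * D.f2 e i x) :=
  eig_spec hN he (D.posL i) (D.z2 i)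

theorem F1_inner (hN : 3 ≤ N) (D : Cr N) {e : E N} (he : ‖e‖ = 1) (i : ℕ) {w : LV N}
    (hw : w ∈ DD (D.Om i)) :
    ⟪D.F1 e i, w⟫ = D.lam1 i * ∫ x in D.Om i, D.f1 e i x * fn w x := by
  have h0 : yf (((0 : ℕ) : ℝ) + cc N) (D.lam1 i) (D.Ls i) = 0 := by
    rw [Nat.cast_zero, zero_add]; exact D.z1 i
  have h := eig_inner hN he (D.posL i) h0 hw
  rw [Nat.cast_zero, zero_add] at h
  exact h

theorem F2_inner (hN : 3 ≤ N) (D : Cr N) {e : E N} (he : ‖e‖ = 1) (i : ℕ) {w : LV N}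
    (hw : w ∈ DD (D.Om i)) :
    ⟪D.F2 e i, w⟫ = D.lam2 i * ∫ x in D.Om i, D.f2 e i x * fn w x :=
  eig_inner hN he (D.posL i) (D.z2 i) hw

/-- the eigenfunctions as elements of the Hilbert space `XS` -/
def Cr.Z1 (D : Cr N) (hN : 3 ≤ N) {e : E N} (he : ‖e‖ = 1) (i : ℕ) : XS e (D.rho i) :=
  ⟨D.F1 e i, (F1_spec hN D he i).1⟩

def Cr.Z2 (D : Cr N) (hN : 3 ≤ N) {e : E N} (he : ‖e‖ = 1) (i : ℕ) : XS e (D.rho i) :=
  ⟨D.F2 e i, (F2_spec hN D he i).1⟩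

/-- an eigenfunction is an eigenvector of `KI` -/
theorem KI_eig (hN : 3 ≤ N) {ρ : ℝ} (hρ : 0 < ρ) (hρ1 : ρ < 1) {e : E N} (he : ‖e‖ = 1)
    (Z : XS e ρ) {lam : ℝ} {f : E N → ℝ} (h1 : fn (Z : LV N) =ᵐ[volume] (ann N ρ).indicator f)
    (h2 : Weak (ann N ρ) (Z : LV N) (fun x => lam * f x)) : lam • KI e ρ Z = Z := by
  apply Subtype.ext
  obtain ⟨S, hS, h⟩ := exists_sob_ann (N := N) hN (td_ge hN) (td_le_ts hN)
  have hM := (h e ρ Z).1
  have h3 : Weak (ann N ρ) (Z : LV N) (fun x => lam * fn (Z : LV N) x) := by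
    refine weak_congr_on ?_ h2
    filter_upwards [h1] with x hx hxo
    rw [hx, indicator_of_mem hxo]
  have h4 := (weak_iff_T hN (ann_meas N ρ) (hM.const_mul lam)).1 h3
  have h5 := T_smul hN (ann_meas N ρ) lam hM
  have h6 : ((lam • KI e ρ Z : XS e ρ) : LV N) = lam • (KI e ρ Z : LV N) := rfl
  rw [h6, KI_coe hN hρ hρ1 he, ← h5]
  exact h4.symm

theorem F_orth (hN : 3 ≤ N) (D : Cr N) {e : E N} (he : ‖e‖ = 1) (i : ℕ) :
    ⟪D.F1 e i, D.F2 e i⟫ = 0 := by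
  rw [F1_inner hN D he i ((mem_XS hN).1 (F2_spec hN D he i).1).1]
  have h1 : ∫ x in D.Om i, D.f1 e i x * fn (D.F2 e i) x
      = ∫ x in D.Om i, D.f1 e i x * D.f2 e i x := by
    refine integral_congr_ae ?_
    have hm : MeasurableSet (D.Om i) := ann_meas N _
    rw [EventuallyEq, ae_restrict_iff' hm]
    filter_upwards [(F2_spec hN D he i).2.1] with x hx hxo
    rw [hx, indicator_of_mem hxo]
  rw [h1]
  have h2 : (0 : ℕ) ≠ D.l := by
    intro h0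
    have := D.hl
    rw [← h0] at this
    exact (by decide : ¬ Odd 0) this
  have h3 := cyl_orth hN he (D.rho_pos i) (D.rho_lt i) h2 (yf_contDiff (cc N) (D.lam1 i)).continuous
    (yf_contDiff (D.l + cc N) (D.lam2 i)).continuous
  have h4 : ∫ x in D.Om i, D.f1 e i x * D.f2 e i x = 0 := h3
  rw [h4, mul_zero]

theorem ts_eq (hN : 3 ≤ N) : ts N = pm N + 2 := by
  have : (3 : ℝ) ≤ N := by exact_mod_cast hN
  unfold ts pm
  have h : (N : ℝ) - 2 ≠ 0 := by linarith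
  field_simp
  ring

/-- the two conformally invariant integrals -/
def G1 (N : ℕ) (b u v : ℝ) : ℝ := nl N (u + b * v) * u
def G2 (N : ℕ) (b u v : ℝ) : ℝ := nl N (u + b * v) * v

theorem G1_cont (hN : 3 ≤ N) (hN5 : N ≤ 5) :
    Continuous (fun p : ℝ × ℝ × ℝ => G1 N p.1 p.2.1 p.2.2) := by
  unfold G1
  have := continuous_nl (N := N) hN hN5
  fun_prop

theorem G2_cont (hN : 3 ≤ N) (hN5 : N ≤ 5) :
    Continuous (fun p : ℝ × ℝ × ℝ => G2 N p.1 p.2.1 p.2.2) := by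
  unfold G2
  have := continuous_nl (N := N) hN hN5
  fun_prop

theorem G1_hom (hN : 3 ≤ N) (b τ u v : ℝ) (hτ : 0 < τ) :
    G1 N b (τ * u) (τ * v) = τ ^ ts N * G1 N b u v := by
  unfold G1
  have h : τ ^ ts N = τ ^ (pm N + 1) * τ := by
    rw [ts_eq hN, show pm N + 2 = (pm N + 1) + 1 by ring, Real.rpow_add_one hτ.ne' (pm N + 1)]
  rw [show τ * u + b * (τ * v) = τ * (u + b * v) by ring, nl_mul _ _ hτ, h]
  ring

theorem G2_hom (hN : 3 ≤ N) (b τ u v : ℝ) (hτ : 0 < τ) :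
    G2 N b (τ * u) (τ * v) = τ ^ ts N * G2 N b u v := by
  unfold G2
  have h : τ ^ ts N = τ ^ (pm N + 1) * τ := by
    rw [ts_eq hN, show pm N + 2 = (pm N + 1) + 1 by ring, Real.rpow_add_one hτ.ne' (pm N + 1)]
  rw [show τ * u + b * (τ * v) = τ * (u + b * v) by ring, nl_mul _ _ hτ, h]
  ring

/-- the norming integrals -/
def Cr.n1 (D : Cr N) (i : ℕ) : ℝ :=
  ∫ t in (0 : ℝ)..(D.Ls i), Real.exp (-2 * t) * yf (cc N) (D.lam1 i) t ^ 2
def Cr.n2 (D : Cr N) (i : ℕ) : ℝ :=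
  ∫ t in (0 : ℝ)..(D.Ls i), Real.exp (-2 * t) *
    (yf (D.l + cc N) (D.lam2 i) t ^ 2 * av N (fun s => Pz N D.l s ^ 2))
def Cr.c1 (D : Cr N) (i : ℕ) (b : ℝ) : ℝ :=
  cI N D.l (yf (cc N) (D.lam1 i)) (yf (D.l + cc N) (D.lam2 i)) (D.Ls i) (G1 N b)
def Cr.c2 (D : Cr N) (i : ℕ) (b : ℝ) : ℝ :=
  cI N D.l (yf (cc N) (D.lam1 i)) (yf (D.l + cc N) (D.lam2 i)) (D.Ls i) (G2 N b)

/-- the limit `a₂ - a₁ > 0` -/
theorem exists_alpha (hN : 3 ≤ N) (hN5 : N ≤ 5) (D : Cr N) :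
    ∃ α η : ℝ, 0 < α ∧ 0 < η ∧ η < 1 / 2 ∧ ∀ᶠ i in atTop, 0 < D.n1 i ∧ 0 < D.n2 i ∧
      ∀ b : ℝ, |b + 1| ≤ η → α ≤ b⁻¹ * (D.c2 i b / D.n2 i) - D.c1 i b / D.n1 i := by
  obtain ⟨h1, h2, h1p, h2p⟩ := n_tendsto hN D
  set m1 := ∫ t in (0 : ℝ)..D.L, Real.exp (-2 * t) * yf (cc N) D.lam t ^ 2 with hm1
  set m2 := ∫ t in (0 : ℝ)..D.L,
        Real.exp (-2 * t) * (yf (D.l + cc N) D.lam t ^ 2 * av N (fun s => Pz N D.l s ^ 2)) with hm2
  set k1 := cI N D.l (yf (cc N) D.lam) (yf (D.l + cc N) D.lam) D.L (G1 N (-1)) with hk1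
  set k2 := cI N D.l (yf (cc N) D.lam) (yf (D.l + cc N) D.lam) D.L (G2 N (-1)) with hk2
  have hA := D.condA
  unfold CondA at hA
  rw [← hm1, ← hm2] at hA
  have e1 : G1 N (-1) = (fun u v => nl N (u - v) * u) := by
    funext u v; unfold G1; rw [show u + -1 * v = u - v by ring]
  have e2 : G2 N (-1) = (fun u v => nl N (u - v) * v) := by
    funext u v; unfold G2; rw [show u + -1 * v = u - v by ring]
  rw [← e1, ← e2, ← hk1, ← hk2] at hA
  -- the product filter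
  have t1 : Tendsto (fun p : ℕ × ℝ => D.c1 p.1 p.2) (atTop ×ˢ 𝓝 (-1)) (𝓝 k1) := by
    rw [Metric.tendsto_nhds]
    intro ε hε
    obtain ⟨δ, hδ, hi⟩ := cI_tendsto hN D (G1_cont hN hN5) (b := -1) ε hε
    have hb : ∀ᶠ b : ℝ in 𝓝 (-1), |b - (-1)| < δ := by
      have := Metric.ball_mem_nhds (-1 : ℝ) hδ
      filter_upwards [this] with b hb
      simpa [Real.dist_eq] using hb
    filter_upwards [hi.prod_mk hb] with p hp
    rw [Real.dist_eq]
    exact hp.1 p.2 hp.2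
  have t2 : Tendsto (fun p : ℕ × ℝ => D.c2 p.1 p.2) (atTop ×ˢ 𝓝 (-1)) (𝓝 k2) := by
    rw [Metric.tendsto_nhds]
    intro ε hε
    obtain ⟨δ, hδ, hi⟩ := cI_tendsto hN D (G2_cont hN hN5) (b := -1) ε hε
    have hb : ∀ᶠ b : ℝ in 𝓝 (-1), |b - (-1)| < δ := by
      have := Metric.ball_mem_nhds (-1 : ℝ) hδ
      filter_upwards [this] with b hb
      simpa [Real.dist_eq] using hb
    filter_upwards [hi.prod_mk hb] with p hp
    rw [Real.dist_eq]
    exact hp.1 p.2 hp.2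
  have t3 : Tendsto (fun p : ℕ × ℝ => D.n1 p.1) (atTop ×ˢ 𝓝 (-1)) (𝓝 m1) := h1.comp tendsto_fst
  have t4 : Tendsto (fun p : ℕ × ℝ => D.n2 p.1) (atTop ×ˢ 𝓝 (-1)) (𝓝 m2) := h2.comp tendsto_fst
  have t5 : Tendsto (fun p : ℕ × ℝ => p.2⁻¹) (atTop ×ˢ 𝓝 (-1)) (𝓝 ((-1)⁻¹)) :=
    (tendsto_inv₀ (by norm_num)).comp tendsto_snd
  have t6 := (t5.mul (t2.div t4 h2p.ne')).sub (t1.div t3 h1p.ne')
  have hlim : 0 < (-1 : ℝ)⁻¹ * (k2 / m2) - k1 / m1 := by
    have : (-1 : ℝ)⁻¹ * (k2 / m2) = - k2 / m2 := by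
      rw [show (-1 : ℝ)⁻¹ = -1 by norm_num]; ring
    rw [this]; linarith
  set A := (-1 : ℝ)⁻¹ * (k2 / m2) - k1 / m1 with hAdef
  have t7 := t6.eventually (lt_mem_nhds (show A / 2 < A by linarith))
  obtain ⟨pa, hpa, pb, hpb, hP⟩ := eventually_prod_iff.1 t7
  obtain ⟨δ, hδ, hδb⟩ := Metric.eventually_nhds_iff.1 hpb
  refine ⟨A / 2, min (δ / 2) (1 / 4), by linarith, lt_min (by linarith) (by norm_num),
    (min_le_right _ _).trans_lt (by norm_num), ?_⟩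
  filter_upwards [hpa, h1.eventually (lt_mem_nhds h1p), h2.eventually (lt_mem_nhds h2p)]
    with i hi hi1 hi2
  refine ⟨hi1, hi2, fun b hb => ?_⟩
  have hb' : pb b := hδb (by
    rw [Real.dist_eq, sub_neg_eq_add]
    have := min_le_left (δ / 2) (1 / 4)
    linarith)
  exact (hP hi hb').le

/-- the statement of `exists_conf` for one direction -/
def ConfP (N : ℕ) (e : E N) (κ : ℝ) : Prop :=
  (∀ (L : ℝ) (j : ℕ) (y z : ℝ → ℝ), 0 < L → Continuous y → Continuous z →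
      ∫ x in ann N (Real.exp (-L)), cyl N e y (Pz N j) x * cyl N e z (Pz N j) x
        = κ * ∫ t in (0 : ℝ)..L, Real.exp (-2 * t) * (y t * z t * av N (fun s => Pz N j s ^ 2))) ∧
    (∀ (L : ℝ) (l : ℕ) (y z : ℝ → ℝ) (G : ℝ → ℝ → ℝ), 0 < L → Continuous y → Continuous z →
      Continuous (fun p : ℝ × ℝ => G p.1 p.2) →
      (∀ τ u v : ℝ, 0 < τ → G (τ * u) (τ * v) = τ ^ ts N * G u v) →
      ∫ x in ann N (Real.exp (-L)), G (cyl N e y (Pz N 0) x) (cyl N e z (Pz N l) x)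
        = κ * cI N l y z L G)

theorem F1_norm_sq (hN : 3 ≤ N) (D : Cr N) {e : E N} (he : ‖e‖ = 1) (i : ℕ) {κ : ℝ}
    (hc : ConfP N e κ) : ‖D.F1 e i‖ ^ 2 = D.lam1 i * (κ * D.n1 i) := by
  rw [← real_inner_self_eq_norm_sq, F1_inner hN D he i ((mem_XS hN).1 (F1_spec hN D he i).1).1]
  have h1 : ∫ x in D.Om i, D.f1 e i x * fn (D.F1 e i) x
      = ∫ x in D.Om i, D.f1 e i x * D.f1 e i x := by
    refine integral_congr_ae ?_
    have hm : MeasurableSet (D.Om i) := ann_meas N _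
    rw [EventuallyEq, ae_restrict_iff' hm]
    filter_upwards [(F1_spec hN D he i).2.1] with x hx hxo
    rw [hx, indicator_of_mem hxo]
  have hy := (yf_contDiff (cc N) (D.lam1 i)).continuous
  have h2 : ∫ x in D.Om i, D.f1 e i x * D.f1 e i x = κ * ∫ t in (0 : ℝ)..(D.Ls i),
      Real.exp (-2 * t) * (yf (cc N) (D.lam1 i) t * yf (cc N) (D.lam1 i) t *
        av N (fun s => Pz N 0 s ^ 2)) := hc.1 (D.Ls i) 0 _ _ (D.posL i) hy hy
  have h3 : av N (fun s => Pz N 0 s ^ 2) = 1 := by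
    have : (fun s => Pz N 0 s ^ 2) = fun _ => (1 : ℝ) := by
      funext s; rw [Pz_zero, one_pow]
    rw [this, av_const hN]
  rw [h1, h2, h3]
  unfold Cr.n1
  congr 3
  funext t
  ring

theorem F2_norm_sq (hN : 3 ≤ N) (D : Cr N) {e : E N} (he : ‖e‖ = 1) (i : ℕ) {κ : ℝ}
    (hc : ConfP N e κ) : ‖D.F2 e i‖ ^ 2 = D.lam2 i * (κ * D.n2 i) := by
  rw [← real_inner_self_eq_norm_sq, F2_inner hN D he i ((mem_XS hN).1 (F2_spec hN D he i).1).1]
  have h1 : ∫ x in D.Om i, D.f2 e i x * fn (D.F2 e i) x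
      = ∫ x in D.Om i, D.f2 e i x * D.f2 e i x := by
    refine integral_congr_ae ?_
    have hm : MeasurableSet (D.Om i) := ann_meas N _
    rw [EventuallyEq, ae_restrict_iff' hm]
    filter_upwards [(F2_spec hN D he i).2.1] with x hx hxo
    rw [hx, indicator_of_mem hxo]
  have hy := (yf_contDiff (D.l + cc N) (D.lam2 i)).continuous
  have h2 : ∫ x in D.Om i, D.f2 e i x * D.f2 e i x = κ * ∫ t in (0 : ℝ)..(D.Ls i),
      Real.exp (-2 * t) * (yf (D.l + cc N) (D.lam2 i) t * yf (D.l + cc N) (D.lam2 i) t *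
        av N (fun s => Pz N D.l s ^ 2)) := hc.1 (D.Ls i) D.l _ _ (D.posL i) hy hy
  rw [h1, h2]
  unfold Cr.n2
  congr 3
  funext t
  ring

/-- the function of `F₁ + b F₂` -/
theorem fn_F12 (hN : 3 ≤ N) (D : Cr N) {e : E N} (he : ‖e‖ = 1) (i : ℕ) (b : ℝ) :
    ∀ᵐ x, x ∈ D.Om i → fn ((D.Z1 hN he i + b • D.Z2 hN he i : XS e (D.rho i)) : LV N) x
      = D.f1 e i x + b * D.f2 e i x := by
  have h1 := fn_add hN (XS_univ hN (D.Z1 hN he i)) (XS_univ hN (b • D.Z2 hN he i))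
  have h2 := fn_smul hN b (XS_univ hN (D.Z2 hN he i))
  filter_upwards [h1, h2, (F1_spec hN D he i).2.1, (F2_spec hN D he i).2.1]
    with x e1 e2 e3 e4 hxo
  have e1' : fn ((D.Z1 hN he i + b • D.Z2 hN he i : XS e (D.rho i)) : LV N) x
      = fn (D.F1 e i) x + fn (b • D.F2 e i) x := e1
  have e2' : fn (b • D.F2 e i) x = b * fn (D.F2 e i) x := e2
  rw [e1', e2', e3, e4, indicator_of_mem hxo, indicator_of_mem hxo]

theorem pair1 (hN : 3 ≤ N) (hN5 : N ≤ 5) (D : Cr N) {e : E N} (he : ‖e‖ = 1) (i : ℕ) {κ : ℝ}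
    (hc : ConfP N e κ) {K Ce b : ℝ} (hK0 : 0 ≤ K)
    (hb1 : ∀ x ∈ D.Om i, |D.f1 e i x| ≤ Ce ∧ |D.f2 e i x| ≤ Ce) (hb : |b| ≤ 3 / 2)
    (hK : 3 * Ce ≤ K) :
    ⟪GI e (D.rho i) K (D.Z1 hN he i + b • D.Z2 hN he i), D.Z1 hN he i⟫ = κ * D.c1 i b ∧
    ⟪GI e (D.rho i) K (D.Z1 hN he i + b • D.Z2 hN he i), D.Z2 hN he i⟫ = κ * D.c2 i b := by
  have hm : MeasurableSet (D.Om i) := ann_meas N _
  have hy := (yf_contDiff (cc N) (D.lam1 i)).continuous
  have hz := (yf_contDiff (D.l + cc N) (D.lam2 i)).continuous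
  have hfK : ∀ x ∈ D.Om i, fK N K (D.f1 e i x + b * D.f2 e i x)
      = nl N (D.f1 e i x + b * D.f2 e i x) := by
    intro x hx
    apply fK_eq
    obtain ⟨h1, h2⟩ := hb1 x hx
    have hCe : 0 ≤ Ce := (abs_nonneg _).trans h1
    calc _ ≤ |D.f1 e i x| + |b * D.f2 e i x| := abs_add_le _ _
      _ ≤ Ce + 3 / 2 * Ce := by rw [abs_mul]; gcongr
      _ ≤ K := by linarith
  constructor
  · rw [GI_inner hN hN5 (D.rho_pos i) (D.rho_lt i) hK0 he]
    have h1 : ∫ x in ann N (D.rho i),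
        fK N K (fn ((D.Z1 hN he i + b • D.Z2 hN he i : XS e (D.rho i)) : LV N) x)
          * fn ((D.Z1 hN he i : XS e (D.rho i)) : LV N) x
        = ∫ x in D.Om i, G1 N b (D.f1 e i x) (D.f2 e i x) := by
      refine integral_congr_ae ?_
      have hm' : MeasurableSet (ann N (D.rho i)) := hm
      rw [EventuallyEq, ae_restrict_iff' hm']
      filter_upwards [fn_F12 hN D he i b, (F1_spec hN D he i).2.1] with x e1 e2 hxo
      have e2' : fn ((D.Z1 hN he i : XS e (D.rho i)) : LV N) x = D.f1 e i x := by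
        have : fn ((D.Z1 hN he i : XS e (D.rho i)) : LV N) x
          = (D.Om i).indicator (D.f1 e i) x := e2
        rw [this, indicator_of_mem (show x ∈ D.Om i from hxo)]
      rw [e1 hxo, e2', hfK x hxo]
      rfl
    rw [h1]
    exact hc.2 (D.Ls i) D.l _ _ (G1 N b) (D.posL i) hy hz
      ((G1_cont hN hN5).comp (by fun_prop : Continuous fun p : ℝ × ℝ => (b, p.1, p.2)))
      (fun τ u v hτ => G1_hom hN b τ u v hτ)
  · rw [GI_inner hN hN5 (D.rho_pos i) (D.rho_lt i) hK0 he]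
    have h1 : ∫ x in ann N (D.rho i),
        fK N K (fn ((D.Z1 hN he i + b • D.Z2 hN he i : XS e (D.rho i)) : LV N) x)
          * fn ((D.Z2 hN he i : XS e (D.rho i)) : LV N) x
        = ∫ x in D.Om i, G2 N b (D.f1 e i x) (D.f2 e i x) := by
      refine integral_congr_ae ?_
      have hm' : MeasurableSet (ann N (D.rho i)) := hm
      rw [EventuallyEq, ae_restrict_iff' hm']
      filter_upwards [fn_F12 hN D he i b, (F2_spec hN D he i).2.1] with x e1 e2 hxo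
      have e2' : fn ((D.Z2 hN he i : XS e (D.rho i)) : LV N) x = D.f2 e i x := by
        have : fn ((D.Z2 hN he i : XS e (D.rho i)) : LV N) x
          = (D.Om i).indicator (D.f2 e i) x := e2
        rw [this, indicator_of_mem (show x ∈ D.Om i from hxo)]
      rw [e1 hxo, e2', hfK x hxo]
      rfl
    rw [h1]
    exact hc.2 (D.Ls i) D.l _ _ (G2 N b) (D.posL i) hy hz
      ((G2_cont hN hN5).comp (by fun_prop : Continuous fun p : ℝ × ℝ => (b, p.1, p.2)))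
      (fun τ u v hτ => G2_hom hN b τ u v hτ)

/-- the `L^∞` bound of solutions of the truncated equation -/
theorem exists_sup_trunc (hN : 3 ≤ N) (hN5 : N ≤ 5) : ∃ S : ℝ, 0 < S ∧
    ∀ (e : E N) (ρ K lam' sig c : ℝ) (w : XS e ρ), 0 ≤ K → 0 ≤ c → 0 ≤ sig →
      |lam'| + sig * K ^ pm N ≤ c →
      Weak (ann N ρ) (w : LV N) (fun x => lam' * fn (w : LV N) x + sig * fK N K (fn (w : LV N) x)) →
      ∀ᵐ x, |fn (w : LV N) x| ≤ S * c * ‖w‖ := by
  obtain ⟨S3, hS3, hsob3⟩ := exists_sob_ann (N := N) hN (q := 3) (by norm_num)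
    (three_le_ts hN hN5)
  obtain ⟨Cs, hCs, hsup⟩ := exists_sup (N := N) hN hN5 1
  refine ⟨Cs * S3, mul_pos hCs hS3, fun e ρ K lam' sig c w hK hc hs hle hw => ?_⟩
  obtain ⟨h1, h2⟩ := hsob3 e ρ w
  have hm := (fK_Mq hN hN5 (K := K) (q := 3) hK (by norm_num) (three_le_ts hN hN5) w)
  have hpt : ∀ u : ℝ, |lam' * u + sig * fK N K u| ≤ c * |u| := by
    intro u
    calc _ ≤ |lam' * u| + |sig * fK N K u| := abs_add_le _ _
      _ ≤ |lam'| * |u| + sig * (K ^ pm N * |u|) := by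
          rw [abs_mul, abs_mul, abs_of_nonneg hs]
          gcongr
          exact fK_le hN hK u
      _ = (|lam'| + sig * K ^ pm N) * |u| := by ring
      _ ≤ c * |u| := by gcongr
  have h3 : Mq 3 (ann N ρ) (fun x => lam' * fn (w : LV N) x + sig * fK N K (fn (w : LV N) x)) :=
    (h1.const_mul lam').add (hm.const_mul sig)
  have h4 := hsup (ann N ρ) (ann_isOpen N ρ) (ann_sub_ball N ρ) w _ h3 hw
  have h5 : nq 3 (ann N ρ) (fun x => lam' * fn (w : LV N) x + sig * fK N K (fn (w : LV N) x))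
      ≤ c * nq 3 (ann N ρ) (fn (w : LV N)) :=
    nq_mono_abs h1 hc (Eventually.of_forall fun x => hpt _)
  filter_upwards [h4] with x hx
  calc _ ≤ Cs * nq 3 (ann N ρ)
        (fun x => lam' * fn (w : LV N) x + sig * fK N K (fn (w : LV N) x)) := hx
    _ ≤ Cs * (c * (S3 * ‖w‖)) := by
        gcongr
        exact h5.trans (by gcongr)
    _ = _ := by ring

theorem fam_exists (hN : 3 ≤ N) (hN5 : N ≤ 5) (D : Cr N) {e : E N} (he : ‖e‖ = 1) :
    ∃ C η : ℝ, 0 < C ∧ 0 < η ∧ η < 1 / 2 ∧ ∀ k > 0, ∀ᶠ i in atTop,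
      ∃ (om : ℝ → LV N) (sig lam' : ℝ → ℝ),
        ContinuousOn om (Icc (-1 - η) (-1 + η)) ∧ ContinuousOn sig (Icc (-1 - η) (-1 + η)) ∧
        ContinuousOn lam' (Icc (-1 - η) (-1 + η)) ∧
        ∀ b ∈ Icc (-1 - η) (-1 + η), sig b ≤ k ∧ SolB D e i C b (om b) (sig b) (lam' b) := by
  obtain ⟨Ce, hCe, hbdd⟩ := eig_bdd hN D he
  obtain ⟨κ, hκ, hconf⟩ := exists_conf N hN
  have hc : ConfP N e κ := hconf e he
  obtain ⟨S, hS, hsup⟩ := exists_sup_trunc (N := N) hN hN5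
  have hlam := D.hlam
  obtain ⟨K, hKdef⟩ : ∃ K, K = S * (D.lam + 2) * (Ce + 3 / 2 * Ce + 1) + 3 * Ce := ⟨_, rfl⟩
  have hKa : 0 ≤ S * (D.lam + 2) * (Ce + 3 / 2 * Ce + 1) := by positivity
  have hK1 : 3 * Ce ≤ K := by linarith
  have hK2 : S * (D.lam + 2) * (Ce + 3 / 2 * Ce + 1) ≤ K := by linarith
  have hK0 : 0 ≤ K := by linarith
  have hKp : 0 ≤ K ^ pm N := Real.rpow_nonneg hK0 _
  obtain ⟨M1, hM1, hKI⟩ := exists_KI_norm (N := N) hN
  obtain ⟨M2, hM2, hGI⟩ := exists_GI_lip (N := N) hN hN5 hK0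
  obtain ⟨m, δL, hm, hδL, hLL⟩ := LL hN D he
  obtain ⟨α, η, hα, hη, hη2, hal⟩ := exists_alpha hN hN5 D
  obtain ⟨M, hMdef⟩ : ∃ M, M = 1 + Ce + M1 + M2 + (D.lam + 1) := ⟨_, rfl⟩
  obtain ⟨ε₀, C0, hε₀, hC0, hbr⟩ := branch_abstract (M := M) (m := m) (α := α) (by linarith) hm hα
  refine ⟨C0 + K + 1, η, by positivity, hη, hη2, fun k hk => ?_⟩
  -- smallness
  obtain ⟨ε₁, hε₁0, hε₁a, hε₁b, hε₁c, hε₁d⟩ : ∃ ε₁ > 0, ε₁ ≤ ε₀ ∧ C0 * ε₁ ≤ k ∧
      C0 * ε₁ * K ^ pm N ≤ 1 ∧ C0 * (C0 * ε₁) ≤ 1 / 2 := by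
    refine ⟨min (min ε₀ (k / C0)) (min (1 / (C0 * (K ^ pm N + 1))) (1 / (2 * C0 * C0))),
      lt_min (lt_min hε₀ (by positivity)) (lt_min (by positivity) (by positivity)), ?_, ?_, ?_, ?_⟩
    · exact (min_le_left _ _).trans (min_le_left _ _)
    · calc C0 * _ ≤ C0 * (k / C0) := by
            gcongr; exact (min_le_left _ _).trans (min_le_right _ _)
        _ = k := by field_simp
    · calc C0 * _ * K ^ pm N ≤ C0 * (1 / (C0 * (K ^ pm N + 1))) * (K ^ pm N + 1) := by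
            gcongr
            · exact (min_le_right _ _).trans (min_le_left _ _)
            · linarith
        _ = 1 := by field_simp
    · calc C0 * (C0 * _) ≤ C0 * (C0 * (1 / (2 * C0 * C0))) := by
            gcongr; exact (min_le_right _ _).trans (min_le_right _ _)
        _ = 1 / 2 := by field_simp
  have hg : Tendsto (fun i => D.lam2 i - D.lam1 i) atTop (𝓝 0) := by
    simpa using D.t2.sub D.t1
  have hl1 : ∀ᶠ i in atTop, |D.lam1 i - D.lam| < min δL (1 / 2) := by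
    have := (Metric.tendsto_nhds.1 D.t1) (min δL (1 / 2)) (lt_min hδL (by norm_num))
    filter_upwards [this] with i hi
    rwa [Real.dist_eq] at hi
  have hl2 : ∀ᶠ i in atTop, |D.lam2 i - D.lam| < 1 / 2 := by
    have := (Metric.tendsto_nhds.1 D.t2) (1 / 2) (by norm_num)
    filter_upwards [this] with i hi
    rwa [Real.dist_eq] at hi
  filter_upwards [hbdd, hLL, hal, hg.eventually (gt_mem_nhds hε₁0), hl1, hl2]
    with i hbi hLi hai hgi hl1i hl2i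
  obtain ⟨hb1, -, -, hn1, hn2, hn1', hn2'⟩ := hbi
  obtain ⟨hp1, hp2, hai⟩ := hai
  have hρ := D.rho_pos i
  have hρ1 := D.rho_lt i
  have hbf : ∀ x ∈ D.Om i, |D.f1 e i x| ≤ Ce ∧ |D.f2 e i x| ≤ Ce := by
    intro x hx
    have h0 : 0 ≤ ‖x‖ := norm_nonneg x
    have h1 : Ce * (1 - ‖x‖) ≤ Ce := by nlinarith
    exact ⟨(hb1 x hx).1.trans h1, (hb1 x hx).2.trans h1⟩
  have hCeM : Ce ≤ M := by linarith
  have hinv : M⁻¹ ≤ Ce⁻¹ := inv_anti₀ hCe hCeM
  have hlam2 : D.lam2 i ≤ M := by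
    have := (abs_lt.1 hl2i).2
    linarith
  obtain ⟨om, sig, lam', hom, hsig, hlam', hall⟩ := hbr (XS e (D.rho i)) (KI e (D.rho i))
    (D.Z1 hN he i) (D.Z2 hN he i) (D.lam1 i) (D.lam2 i) η (GI e (D.rho i) K)
    (KI_symm hN hρ hρ1 he)
    (fun x => (hKI _ hρ hρ1 e he x).trans (by gcongr; linarith))
    (hinv.trans hn1') (hn1.trans hCeM) (hinv.trans hn2') (hn2.trans hCeM)
    (D.pos1 i) (D.lt i) hlam2
    (KI_eig hN hρ hρ1 he _ (F1_spec hN D he i).2.1 (F1_spec hN D he i).2.2)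
    (KI_eig hN hρ hρ1 he _ (F2_spec hN D he i).2.1 (F2_spec hN D he i).2.2)
    (F_orth hN D he i)
    (fun u v => (hGI _ hρ hρ1 e he u v).trans (by gcongr; linarith))
    (GI_zero hN hN5 hρ hρ1 hK0 he)
    (by
      intro x c0 c1
      have h1 := hLi (D.lam1 i) (hl1i.trans_le (min_le_left _ _)) x x.2 c0 c1
      rw [show T (D.Om i) (fn (x : LV N)) = (KI e (D.rho i) x : LV N) from
        (KI_coe hN hρ hρ1 he x).symm] at h1
      exact h1)
    hη hη2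
    (by
      intro b hb
      have hb3 : |b| ≤ 3 / 2 := by
        have h2 := abs_le.1 hb
        exact abs_le.2 ⟨by linarith [h2.1], by linarith [h2.2]⟩
      obtain ⟨hpa, hpb⟩ := pair1 hN hN5 D he i hc (K := K) hK0 hbf hb3 hK1
      have e1 : ‖D.Z1 hN he i‖ ^ 2 = D.lam1 i * (κ * D.n1 i) := F1_norm_sq hN D he i hc
      have e2 : ‖D.Z2 hN he i‖ ^ 2 = D.lam2 i * (κ * D.n2 i) := F2_norm_sq hN D he i hc
      rw [hpa, hpb, e1, e2]
      have h3 := hai b hb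
      have hl1p := D.pos1 i
      have hl2p : 0 < D.lam2 i := hl1p.trans (D.lt i)
      have e3 : D.lam2 i * (κ * D.c2 i b) / (D.lam2 i * (κ * D.n2 i)) = D.c2 i b / D.n2 i := by
        field_simp
      have e4 : D.lam1 i * (κ * D.c1 i b) / (D.lam1 i * (κ * D.n1 i)) = D.c1 i b / D.n1 i := by
        field_simp
      rw [e3, e4]
      exact h3)
    (hgi.le.trans hε₁a)
  refine ⟨fun b => (om b : LV N), sig, lam', continuous_subtype_val.comp_continuousOn hom, hsig,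
    hlam', fun b hb => ?_⟩
  obtain ⟨hs0, hs1, ho1, ho2, hor1, hor2, hne1, hne2, heq⟩ := hall b hb
  have hg0 : 0 < D.lam2 i - D.lam1 i := by have := D.lt i; linarith
  have hs2 : sig b ≤ C0 * ε₁ := hs1.trans (by gcongr)
  have hb3 : |b| ≤ 3 / 2 := abs_le.2 ⟨by linarith [hb.1], by linarith [hb.2]⟩
  -- the truncated equation
  obtain ⟨U, hU⟩ : ∃ U : XS e (D.rho i), U = D.Z1 hN he i + b • D.Z2 hN he i + om b := ⟨_, rfl⟩
  rw [← hU] at heq
  obtain ⟨Sd, hSd, hsobd⟩ := exists_sob_ann (N := N) hN (td_ge hN) (td_le_ts hN)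
  have hMd := (hsobd e (D.rho i) U).1
  have hMf := fK_Mq hN hN5 (K := K) hK0 (td_ge hN) (td_le_ts hN) U
  have hT : (U : LV N) = T (ann N (D.rho i))
      (fun x => lam' b * fn (U : LV N) x + sig b * fK N K (fn (U : LV N) x)) := by
    rw [T_add hN (ann_meas N _) (hMd.const_mul (lam' b)) (hMf.const_mul (sig b)),
      T_smul hN (ann_meas N _) (lam' b) hMd, T_smul hN (ann_meas N _) (sig b) hMf,
      ← KI_coe hN hρ hρ1 he, ← GI_coe hN hN5 hρ hρ1 hK0 he]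
    have h1 : U = lam' b • KI e (D.rho i) U + sig b • GI e (D.rho i) K U := by
      rw [← heq]; abel
    have h2 := congrArg (fun z : XS e (D.rho i) => (z : LV N)) h1
    exact h2
  have hW : Weak (ann N (D.rho i)) (U : LV N)
      (fun x => lam' b * fn (U : LV N) x + sig b * fK N K (fn (U : LV N) x)) :=
    (weak_iff_T hN (ann_meas N _) ((hMd.const_mul (lam' b)).add (hMf.const_mul (sig b)))).2 hT
  have hl' : |lam' b| + sig b * K ^ pm N ≤ D.lam + 2 := by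
    have h1 : C0 * sig b ≤ 1 / 2 := (by gcongr : C0 * sig b ≤ C0 * (C0 * ε₁)).trans hε₁d
    have h2 : |lam' b - D.lam1 i| ≤ 1 / 2 := hne1.trans h1
    have h3 : |D.lam1 i - D.lam| < 1 / 2 := hl1i.trans_le (min_le_right _ _)
    have h4 : |lam' b| ≤ D.lam + 1 := by
      have h5 := abs_le.1 h2
      have h6 := abs_lt.1 h3
      exact abs_le.2 ⟨by linarith [h5.1, h6.1], by linarith [h5.2, h6.2]⟩
    have h5 : sig b * K ^ pm N ≤ 1 := (by gcongr : sig b * K ^ pm N ≤ C0 * ε₁ * K ^ pm N).trans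
      hε₁c
    linarith
  have hUn : ‖U‖ ≤ Ce + 3 / 2 * Ce + 1 := by
    rw [hU]
    calc _ ≤ ‖D.Z1 hN he i‖ + ‖b • D.Z2 hN he i‖ + ‖om b‖ := norm_add₃_le
      _ ≤ Ce + 3 / 2 * Ce + 1 := by
          rw [norm_smul, Real.norm_eq_abs]
          have : |b| * ‖D.Z2 hN he i‖ ≤ 3 / 2 * Ce := by
            apply mul_le_mul hb3 hn2 (norm_nonneg _) (by norm_num)
          have h7 : ‖D.Z1 hN he i‖ ≤ Ce := hn1
          linarith
  have hbU : ∀ᵐ x, |fn (U : LV N) x| ≤ K := by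
    filter_upwards [hsup e (D.rho i) K (lam' b) (sig b) (D.lam + 2) U hK0 (by linarith) hs0.le hl'
      hW] with x hx
    refine hx.trans (le_trans ?_ hK2)
    gcongr
  have hUc : (U : LV N) = D.F1 e i + b • D.F2 e i + (om b : LV N) := by
    rw [hU]; rfl
  have hW2 : Weak (D.Om i) (U : LV N)
      (fun x => lam' b * fn (U : LV N) x + sig b * nl N (fn (U : LV N) x)) := by
    refine weak_congr_on ?_ hW
    filter_upwards [hbU] with x hx _
    rw [fK_eq hx]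
  rw [hUc] at hbU hW2
  have hCC : C0 ≤ C0 + K + 1 := by linarith
  refine ⟨hs2.trans hε₁b, ?_⟩
  exact
    { mem := (om b).2
      sig_pos := hs0
      om_le := ho1.trans (by gcongr)
      orth1 := hor1
      orth2 := hor2
      near1 := hne1.trans (by gcongr)
      near2 := hne2.trans (by gcongr)
      bdd := by
        filter_upwards [hbU] with x hx
        exact hx.trans (by linarith)
      eqn := hW2 }

end Pool.Agent.helper13.BN
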