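import Pool.Agent.helper69.BN.HilSA

set_option autoImplicit false

/-!
# MP_94a57f_an, module C6a: the branch of solutions, abstract version

In a Hilbert space: near a double eigenvalue crossing the equation `U - λ' K U = σ G(U)` with
`U = Z₀ + b Z₁ + ω`, `ω ⟂ Z₀, Z₁`, is solved by a contraction, with
`σ = (λ₁ - λ₀) / (a₁ - a₀)`.
-/

open Filter Topology Set
open scoped RealInnerProductSpace

noncomputable section

namespace Pool.Agent.helper13.BN

section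
variable {X : Type*} [NormedAddCommGroup X] [CompleteSpace X]

/-- Banach's fixed point theorem in a closed ball. -/
theorem fix_ball {r : ℝ} (hr : 0 ≤ r) (f : X → X) (hm : ∀ x, ‖x‖ ≤ r → ‖f x‖ ≤ r)
    (hf : ∀ x y, ‖x‖ ≤ r → ‖y‖ ≤ r → ‖f x - f y‖ ≤ 1 / 2 * ‖x - y‖) :
    ∃ x, ‖x‖ ≤ r ∧ f x = x := by
  classical
  have hc : IsComplete (Metric.closedBall (0 : X) r) := Metric.isClosed_closedBall.isComplete
  have hmaps : MapsTo f (Metric.closedBall (0 : X) r) (Metric.closedBall (0 : X) r) := by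
    intro x hx
    rw [mem_closedBall_zero_iff] at hx ⊢
    exact hm x hx
  have hcon : ContractingWith (1 / 2 : NNReal) (hmaps.restrict f _ _) := by
    refine ⟨by
      rw [← NNReal.coe_lt_coe]; norm_num, ?_⟩
    refine LipschitzWith.of_dist_le_mul ?_
    rintro ⟨x, hx⟩ ⟨y, hy⟩
    rw [mem_closedBall_zero_iff] at hx hy
    rw [Subtype.dist_eq, Subtype.dist_eq]
    simp only [MapsTo.val_restrict_apply, dist_eq_norm]
    have := hf x y hx hy
    simpa using this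
  have h0 : (0 : X) ∈ Metric.closedBall (0 : X) r := by simpa using hr
  obtain ⟨y, hy, hfix, -⟩ := hcon.exists_fixedPoint' hc hmaps h0 (edist_ne_top _ _)
  refine ⟨y, by simpa using hy, hfix⟩
end

variable {X : Type*} [NormedAddCommGroup X] [InnerProductSpace ℝ X]

/-- solution operator of the augmented problem -/
theorem exists_aug_op [CompleteSpace X] {B : X →L[ℝ] X} (hs : ∀ x y, ⟪B x, y⟫ = ⟪x, B y⟫)
    (Z : Fin 2 → X) {m : ℝ} (hm : 0 < m)
    (hb : ∀ (x : X) (c : Fin 2 → ℝ), m * (‖x‖ + ∑ a, |c a|)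
      ≤ ‖B x - ∑ a, c a • Z a‖ + ∑ a, |⟪Z a, x⟫|) :
    ∃ R : X → X, (∀ y, ∃ c : Fin 2 → ℝ, B (R y) - ∑ a, c a • Z a = y) ∧
      (∀ y a, ⟪Z a, R y⟫ = 0) ∧ (∀ y y', ‖R y - R y'‖ ≤ m⁻¹ * ‖y - y'‖) ∧ R 0 = 0 := by
  classical
  have key := aug_of_symm hs Z hm hb
  choose z hz hu using fun y => key y 0
  have hlip : ∀ y y', ‖(z y).1 - (z y').1‖ ≤ m⁻¹ * ‖y - y'‖ := by
    intro y y'
    have h1 := hb ((z y).1 - (z y').1) ((z y).2 - (z y').2)
    have e1 : B ((z y).1 - (z y').1) - ∑ a, ((z y).2 - (z y').2) a • Z a = y - y' := by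
      calc _ = (B (z y).1 - ∑ a, (z y).2 a • Z a) - (B (z y').1 - ∑ a, (z y').2 a • Z a) := by
            simp only [map_sub, Pi.sub_apply, sub_smul, Finset.sum_sub_distrib]
            abel
        _ = y - y' := by rw [(hz y).1, (hz y').1]
    have e2 : ∑ a, |⟪Z a, (z y).1 - (z y').1⟫| = 0 := by
      refine Finset.sum_eq_zero fun a _ => ?_
      rw [inner_sub_right, (hz y).2 a, (hz y').2 a]
      simp
    rw [e1, e2, add_zero] at h1
    have h2 : 0 ≤ ∑ a, |((z y).2 - (z y').2) a| := Finset.sum_nonneg fun a _ => abs_nonneg _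
    rw [inv_mul_eq_div, le_div_iff₀ hm]
    nlinarith
  refine ⟨fun y => (z y).1, fun y => ⟨(z y).2, (hz y).1⟩, fun y a => by simpa using (hz y).2 a,
    hlip, ?_⟩
  have : (0 : X × (Fin 2 → ℝ)) = z 0 := hu 0 0 (by simp)
  show (z 0).1 = 0
  rw [← this]; rfl

/-- the Fourier coefficient `l ⟪x, Z⟫ / ‖Z‖²` -/
theorem coef_le {M l : ℝ} (hM : 0 < M) (hl : 0 ≤ l) (hlM : l ≤ M) {Z : X} (hZ : M⁻¹ ≤ ‖Z‖)
    (x : X) : |l * ⟪x, Z⟫ / ‖Z‖ ^ 2| ≤ M ^ 2 * ‖x‖ := by
  have hZ0 : 0 < ‖Z‖ := lt_of_lt_of_le (inv_pos.2 hM) hZ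
  have hMZ : 1 ≤ M * ‖Z‖ := by
    rw [← mul_inv_cancel₀ hM.ne']
    exact mul_le_mul_of_nonneg_left hZ hM.le
  rw [abs_div, abs_mul, abs_of_nonneg hl, abs_of_nonneg (by positivity : (0 : ℝ) ≤ ‖Z‖ ^ 2),
    div_le_iff₀ (by positivity)]
  have h1 : |⟪x, Z⟫| ≤ ‖x‖ * ‖Z‖ := abs_real_inner_le_norm x Z
  calc l * |⟪x, Z⟫| ≤ M * (‖x‖ * ‖Z‖) := by
        apply mul_le_mul hlM h1 (abs_nonneg _) hM.le
    _ = (M * ‖x‖ * ‖Z‖) * 1 := by ring
    _ ≤ (M * ‖x‖ * ‖Z‖) * (M * ‖Z‖) := by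
        apply mul_le_mul_of_nonneg_left hMZ (by positivity)
    _ = M ^ 2 * ‖x‖ * ‖Z‖ ^ 2 := by ring

theorem branch_abstract {M m α : ℝ} (hM : 1 ≤ M) (hm : 0 < m) (hα : 0 < α) :
    ∃ ε₀ C : ℝ, 0 < ε₀ ∧ 0 < C ∧ ∀ (X : Type) [NormedAddCommGroup X] [InnerProductSpace ℝ X]
      [CompleteSpace X] (K : X →L[ℝ] X) (Z0 Z1 : X) (l0 l1 η : ℝ) (G : X → X),
      (∀ x y, ⟪K x, y⟫ = ⟪x, K y⟫) → (∀ x, ‖K x‖ ≤ M * ‖x‖) →
      M⁻¹ ≤ ‖Z0‖ → ‖Z0‖ ≤ M → M⁻¹ ≤ ‖Z1‖ → ‖Z1‖ ≤ M →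
      0 < l0 → l0 < l1 → l1 ≤ M → l0 • K Z0 = Z0 → l1 • K Z1 = Z1 → ⟪Z0, Z1⟫ = 0 →
      (∀ u v, ‖G u - G v‖ ≤ M * ‖u - v‖) → G 0 = 0 →
      (∀ (x : X) (c0 c1 : ℝ), m * (‖x‖ + |c0| + |c1|)
        ≤ ‖x - l0 • K x - c0 • Z0 - c1 • Z1‖ + |⟪Z0, x⟫| + |⟪Z1, x⟫|) →
      0 < η → η < 1 / 2 →
      (∀ b, |b + 1| ≤ η → α ≤ b⁻¹ * (l1 * ⟪G (Z0 + b • Z1), Z1⟫ / ‖Z1‖ ^ 2)
        - l0 * ⟪G (Z0 + b • Z1), Z0⟫ / ‖Z0‖ ^ 2) →
      l1 - l0 ≤ ε₀ →
      ∃ (om : ℝ → X) (sig lam' : ℝ → ℝ), ContinuousOn om (Icc (-1 - η) (-1 + η)) ∧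
        ContinuousOn sig (Icc (-1 - η) (-1 + η)) ∧ ContinuousOn lam' (Icc (-1 - η) (-1 + η)) ∧
        ∀ b ∈ Icc (-1 - η) (-1 + η), 0 < sig b ∧ sig b ≤ C * (l1 - l0) ∧ ‖om b‖ ≤ C * sig b ∧
          ‖om b‖ ≤ 1 ∧
          ⟪Z0, om b⟫ = 0 ∧ ⟪Z1, om b⟫ = 0 ∧ |lam' b - l0| ≤ C * sig b ∧
          |lam' b - l1| ≤ C * sig b ∧
          (Z0 + b • Z1 + om b) - lam' b • K (Z0 + b • Z1 + om b)
            = sig b • G (Z0 + b • Z1 + om b) := by
  have hM0 : 0 < M := by linarith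
  set r : ℝ := α / (6 * M ^ 3 + α) with hr
  have hr0 : 0 < r := by positivity
  have hr1 : r ≤ 1 := by
    rw [hr, div_le_one (by positivity)]
    have : 0 ≤ 6 * M ^ 3 := by positivity
    linarith
  have hrα : 3 * M ^ 3 * r ≤ α / 2 := by
    rw [hr, mul_div_assoc', div_le_div_iff₀ (by positivity) (by norm_num)]
    have : 0 ≤ M ^ 3 := by positivity
    nlinarith [mul_pos hα hα]
  set c1 : ℝ := 96 * M ^ 8 / α ^ 2 + 12 * M ^ 5 / α with hc1
  have hc10 : 0 < c1 := by positivity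
  set ε₀ : ℝ := min (m / (2 * c1)) (r * m * α / (16 * M ^ 5)) with hε₀
  have hε₀0 : 0 < ε₀ := by
    rw [hε₀]; exact lt_min (by positivity) (by positivity)
  refine ⟨ε₀, 8 * M ^ 5 / m + 8 * M ^ 4 + 2 / α, hε₀0, by positivity, ?_⟩
  intro X _ _ _ K Z0 Z1 l0 l1 η G hKs hK hZ0 hZ0' hZ1 hZ1' hl0 hl01 hl1 hE0 hE1 hort hG hG0 hLL
    hη hη2 hA hg
  have hl0M : l0 ≤ M := by linarith
  have hZ0p : 0 < ‖Z0‖ := lt_of_lt_of_le (inv_pos.2 hM0) hZ0
  have hZ1p : 0 < ‖Z1‖ := lt_of_lt_of_le (inv_pos.2 hM0) hZ1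
  set g := l1 - l0 with hgdef
  have hg0 : 0 < g := by rw [hgdef]; linarith
  -- the interval
  have hbI : ∀ b ∈ Icc (-1 - η) (-1 + η), |b + 1| ≤ η ∧ b ≠ 0 ∧ |b| ≤ 3 / 2 ∧ |b⁻¹| ≤ 2 := by
    intro b hb
    obtain ⟨h1, h2⟩ := hb
    have hneg : b ≤ -(1 / 2) := by linarith
    refine ⟨abs_le.2 ⟨by linarith, by linarith⟩, by linarith, abs_le.2 ⟨by linarith, by linarith⟩, ?_⟩
    rw [abs_inv, abs_of_nonpos (by linarith), inv_le_comm₀ (by linarith) (by norm_num)]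
    linarith
  -- basic functions
  have hGn : ∀ u, ‖G u‖ ≤ M * ‖u‖ := by
    intro u
    have := hG u 0
    rwa [hG0, sub_zero, sub_zero] at this
  let A0 : X → ℝ := fun u => l0 * ⟪G u, Z0⟫ / ‖Z0‖ ^ 2
  let A1 : X → ℝ := fun u => l1 * ⟪G u, Z1⟫ / ‖Z1‖ ^ 2
  have hA0l : ∀ u v, |A0 u - A0 v| ≤ M ^ 3 * ‖u - v‖ := by
    intro u v
    have h1 := coef_le hM0 hl0.le hl0M hZ0 (G u - G v)
    have h2 : A0 u - A0 v = l0 * ⟪G u - G v, Z0⟫ / ‖Z0‖ ^ 2 := by
      simp only [A0, inner_sub_left]; ring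
    rw [h2]
    calc _ ≤ M ^ 2 * ‖G u - G v‖ := h1
      _ ≤ M ^ 2 * (M * ‖u - v‖) := by gcongr; exact hG u v
      _ = _ := by ring
  have hA1l : ∀ u v, |A1 u - A1 v| ≤ M ^ 3 * ‖u - v‖ := by
    intro u v
    have h1 := coef_le hM0 (hl0.le.trans hl01.le) hl1 hZ1 (G u - G v)
    have h2 : A1 u - A1 v = l1 * ⟪G u - G v, Z1⟫ / ‖Z1‖ ^ 2 := by
      simp only [A1, inner_sub_left]; ring
    rw [h2]
    calc _ ≤ M ^ 2 * ‖G u - G v‖ := h1
      _ ≤ M ^ 2 * (M * ‖u - v‖) := by gcongr; exact hG u v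
      _ = _ := by ring
  have hA00 : A0 0 = 0 := by simp [A0, hG0]
  have hA10 : A1 0 = 0 := by simp [A1, hG0]
  have hA0n : ∀ u, |A0 u| ≤ M ^ 3 * ‖u‖ := by
    intro u; have := hA0l u 0; rwa [hA00, sub_zero, sub_zero] at this
  have hA1n : ∀ u, |A1 u| ≤ M ^ 3 * ‖u‖ := by
    intro u; have := hA1l u 0; rwa [hA10, sub_zero, sub_zero] at this
  have hGc : Continuous G := by
    have : LipschitzWith (Real.toNNReal M) G := by
      refine LipschitzWith.of_dist_le_mul fun u v => ?_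
      rw [dist_eq_norm, dist_eq_norm, Real.coe_toNNReal _ hM0.le]
      exact hG u v
    exact this.continuous
  have hA0c : Continuous A0 := by
    simp only [A0]
    exact ((continuous_const.mul (hGc.inner continuous_const)).div_const _)
  have hA1c : Continuous A1 := by
    simp only [A1]
    exact ((continuous_const.mul (hGc.inner continuous_const)).div_const _)
  let u : ℝ → X → X := fun b x => Z0 + b • Z1 + x
  have hu : ∀ b ∈ Icc (-1 - η) (-1 + η), ∀ x, ‖x‖ ≤ r → ‖u b x‖ ≤ 4 * M := by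
    intro b hb x hx
    obtain ⟨-, -, hb3, -⟩ := hbI b hb
    calc ‖u b x‖ ≤ ‖Z0‖ + ‖b • Z1‖ + ‖x‖ := norm_add₃_le
      _ ≤ M + 3 / 2 * M + 1 := by
          rw [norm_smul, Real.norm_eq_abs]
          have : |b| * ‖Z1‖ ≤ 3 / 2 * M := by
            apply mul_le_mul hb3 hZ1' (norm_nonneg _) (by norm_num)
          linarith
      _ ≤ 4 * M := by linarith
  let Dl : ℝ → X → ℝ := fun b x => b⁻¹ * A1 (u b x) - A0 (u b x)
  have huu : ∀ b x y, u b x - u b y = x - y := by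
    intro b x y; simp only [u]; abel
  have hDll : ∀ b ∈ Icc (-1 - η) (-1 + η), ∀ x y, |Dl b x - Dl b y| ≤ 3 * M ^ 3 * ‖x - y‖ := by
    intro b hb x y
    obtain ⟨-, -, -, hb2⟩ := hbI b hb
    have h1 := hA1l (u b x) (u b y)
    have h0 := hA0l (u b x) (u b y)
    rw [huu] at h1 h0
    have h2 : Dl b x - Dl b y = b⁻¹ * (A1 (u b x) - A1 (u b y)) - (A0 (u b x) - A0 (u b y)) := by
      simp only [Dl]; ring
    rw [h2]
    calc _ ≤ |b⁻¹ * (A1 (u b x) - A1 (u b y))| + |A0 (u b x) - A0 (u b y)| := abs_sub _ _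
      _ ≤ 2 * (M ^ 3 * ‖x - y‖) + M ^ 3 * ‖x - y‖ := by
          rw [abs_mul]
          gcongr
      _ = _ := by ring
  have hDl0 : ∀ b ∈ Icc (-1 - η) (-1 + η), α ≤ Dl b 0 := by
    intro b hb
    have := hA b (hbI b hb).1
    simpa only [Dl, u, A0, A1, add_zero] using this
  have hDl : ∀ b ∈ Icc (-1 - η) (-1 + η), ∀ x, ‖x‖ ≤ r → α / 2 ≤ Dl b x := by
    intro b hb x hx
    have h1 := hDll b hb x 0
    rw [sub_zero] at h1
    have h2 := hDl0 b hb
    have h3 : 3 * M ^ 3 * ‖x‖ ≤ 3 * M ^ 3 * r := by gcongr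
    have h4 := (abs_le.1 h1).1
    linarith
  let S : ℝ → X → ℝ := fun b x => g / Dl b x
  have hS0 : ∀ b ∈ Icc (-1 - η) (-1 + η), ∀ x, ‖x‖ ≤ r → 0 < S b x ∧ S b x ≤ 2 / α * g := by
    intro b hb x hx
    have h1 := hDl b hb x hx
    have h2 : 0 < Dl b x := by linarith
    refine ⟨div_pos hg0 h2, ?_⟩
    simp only [S]
    rw [div_le_iff₀ h2]
    have : 2 / α * g * (α / 2) = g := by field_simp
    calc g = 2 / α * g * (α / 2) := this.symm
      _ ≤ 2 / α * g * Dl b x := by gcongr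
  have hSl : ∀ b ∈ Icc (-1 - η) (-1 + η), ∀ x y, ‖x‖ ≤ r → ‖y‖ ≤ r →
      |S b x - S b y| ≤ g * (12 * M ^ 3 / α ^ 2) * ‖x - y‖ := by
    intro b hb x y hx hy
    have h1 := hDl b hb x hx
    have h2 := hDl b hb y hy
    have h1' : 0 < Dl b x := by linarith
    have h2' : 0 < Dl b y := by linarith
    have h3 : S b x - S b y = g * (Dl b y - Dl b x) / (Dl b x * Dl b y) := by
      simp only [S]; field_simp
    rw [h3, abs_div, abs_mul, abs_of_pos hg0, abs_of_pos (mul_pos h1' h2'), div_le_iff₀ (mul_pos h1' h2')]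
    have h4 := hDll b hb y x
    rw [norm_sub_rev] at h4
    have h5 : α ^ 2 / 4 ≤ Dl b x * Dl b y := by nlinarith
    calc g * |Dl b y - Dl b x| ≤ g * (3 * M ^ 3 * ‖x - y‖) := by gcongr
      _ = g * (12 * M ^ 3 / α ^ 2) * ‖x - y‖ * (α ^ 2 / 4) := by field_simp; ring
      _ ≤ g * (12 * M ^ 3 / α ^ 2) * ‖x - y‖ * (Dl b x * Dl b y) := by gcongr
  let V : ℝ → X → X := fun b x => G (u b x) - A0 (u b x) • K x
  have hVn : ∀ b ∈ Icc (-1 - η) (-1 + η), ∀ x, ‖x‖ ≤ r → ‖V b x‖ ≤ 8 * M ^ 5 := by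
    intro b hb x hx
    have h1 := hu b hb x hx
    have h2 := hGn (u b x)
    have h3 := hA0n (u b x)
    have h4 := hK x
    calc ‖V b x‖ ≤ ‖G (u b x)‖ + ‖A0 (u b x) • K x‖ := norm_sub_le _ _
      _ ≤ M * (4 * M) + (M ^ 3 * (4 * M)) * (M * 1) := by
          rw [norm_smul, Real.norm_eq_abs]
          gcongr
          · exact h2.trans (by gcongr)
          · exact h3.trans (by gcongr)
          · exact h4.trans (by gcongr; linarith)
      _ ≤ 8 * M ^ 5 := by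
          have : M ^ 2 ≤ M ^ 5 := pow_le_pow_right₀ hM (by norm_num)
          nlinarith
  have hVl : ∀ b ∈ Icc (-1 - η) (-1 + η), ∀ x y, ‖x‖ ≤ r → ‖y‖ ≤ r →
      ‖V b x - V b y‖ ≤ 6 * M ^ 5 * ‖x - y‖ := by
    intro b hb x y hx hy
    have h0 : V b x - V b y = (G (u b x) - G (u b y)) - (A0 (u b x) - A0 (u b y)) • K x
        - A0 (u b y) • K (x - y) := by
      simp only [V, map_sub, sub_smul, smul_sub]; abel
    have h1 := hG (u b x) (u b y)
    have h2 := hA0l (u b x) (u b y)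
    rw [huu] at h1 h2
    have h3 : ‖K x‖ ≤ M * 1 := (hK x).trans (by gcongr; linarith)
    have h4 : |A0 (u b y)| ≤ M ^ 3 * (4 * M) := (hA0n _).trans (by gcongr; exact hu b hb y hy)
    have h5 := hK (x - y)
    rw [h0]
    calc _ ≤ ‖G (u b x) - G (u b y)‖ + ‖(A0 (u b x) - A0 (u b y)) • K x‖
          + ‖A0 (u b y) • K (x - y)‖ :=
          (norm_sub_le _ _).trans (by gcongr; exact norm_sub_le _ _)
      _ ≤ M * ‖x - y‖ + (M ^ 3 * ‖x - y‖) * (M * 1) + (M ^ 3 * (4 * M)) * (M * ‖x - y‖) := by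
          rw [norm_smul, norm_smul, Real.norm_eq_abs, Real.norm_eq_abs]
          gcongr
      _ = (M + M ^ 4 + 4 * M ^ 5) * ‖x - y‖ := by ring
      _ ≤ 6 * M ^ 5 * ‖x - y‖ := by
          have e1 : M ≤ M ^ 5 := by
            calc M = M ^ 1 := (pow_one M).symm
              _ ≤ M ^ 5 := pow_le_pow_right₀ hM (by norm_num)
          have e2 : M ^ 4 ≤ M ^ 5 := pow_le_pow_right₀ hM (by norm_num)
          apply mul_le_mul_of_nonneg_right _ (norm_nonneg _)
          linarith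
  -- the linear solution operator
  obtain ⟨R, hR1, hR2, hR3, hR4⟩ := exists_aug_op (B := ContinuousLinearMap.id ℝ X - l0 • K)
    (by
      intro x y
      simp only [sub_apply, ContinuousLinearMap.id_apply,
        smul_apply, inner_sub_left, inner_sub_right, inner_smul_left,
        inner_smul_right, hKs x y, conj_trivial])
    ![Z0, Z1] hm (by
      intro x c
      have := hLL x (c 0) (c 1)
      simp only [Fin.sum_univ_two, Matrix.cons_val_zero, Matrix.cons_val_one,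
        sub_apply, ContinuousLinearMap.id_apply,
        smul_apply]
      have e : x - l0 • K x - (c 0 • Z0 + c 1 • Z1) = x - l0 • K x - c 0 • Z0 - c 1 • Z1 := by
        abel
      rw [e, ← add_assoc, ← add_assoc]
      exact this)
  have hRn : ∀ y, ‖R y‖ ≤ m⁻¹ * ‖y‖ := by
    intro y; have := hR3 y 0; rwa [hR4, sub_zero, sub_zero] at this
  have hRc : Continuous R := by
    have : LipschitzWith (Real.toNNReal m⁻¹) R := by
      refine LipschitzWith.of_dist_le_mul fun u v => ?_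
      rw [dist_eq_norm, dist_eq_norm, Real.coe_toNNReal _ (inv_pos.2 hm).le]
      exact hR3 u v
    exact this.continuous
  let Ψ : ℝ → X → X := fun b x => R (S b x • V b x)
  have hΨn : ∀ b ∈ Icc (-1 - η) (-1 + η), ∀ x, ‖x‖ ≤ r → ‖Ψ b x‖ ≤ 8 * M ^ 5 / m * S b x := by
    intro b hb x hx
    have h1 := hRn (S b x • V b x)
    rw [norm_smul, Real.norm_eq_abs, abs_of_pos (hS0 b hb x hx).1] at h1
    calc ‖Ψ b x‖ ≤ m⁻¹ * (S b x * ‖V b x‖) := h1
      _ ≤ m⁻¹ * (S b x * (8 * M ^ 5)) := by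
          have := (hS0 b hb x hx).1
          gcongr
          exact hVn b hb x hx
      _ = _ := by field_simp
  have hΨr : ∀ b ∈ Icc (-1 - η) (-1 + η), ∀ x, ‖x‖ ≤ r → ‖Ψ b x‖ ≤ r := by
    intro b hb x hx
    refine (hΨn b hb x hx).trans ?_
    have h1 := (hS0 b hb x hx).2
    have h2 : g ≤ r * m * α / (16 * M ^ 5) := hg.trans (min_le_right _ _)
    calc 8 * M ^ 5 / m * S b x ≤ 8 * M ^ 5 / m * (2 / α * (r * m * α / (16 * M ^ 5))) := by
          gcongr
          exact h1.trans (by gcongr)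
      _ = r := by field_simp; ring
  have hΨl : ∀ b ∈ Icc (-1 - η) (-1 + η), ∀ x y, ‖x‖ ≤ r → ‖y‖ ≤ r →
      ‖Ψ b x - Ψ b y‖ ≤ 1 / 2 * ‖x - y‖ := by
    intro b hb x y hx hy
    have h0 : S b x • V b x - S b y • V b y
        = (S b x - S b y) • V b x + S b y • (V b x - V b y) := by
      simp only [sub_smul, smul_sub]; abel
    have h1 := hR3 (S b x • V b x) (S b y • V b y)
    have h2 : g ≤ m / (2 * c1) := hg.trans (min_le_left _ _)
    calc ‖Ψ b x - Ψ b y‖ ≤ m⁻¹ * ‖S b x • V b x - S b y • V b y‖ := h1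
      _ ≤ m⁻¹ * ((g * (12 * M ^ 3 / α ^ 2) * ‖x - y‖) * (8 * M ^ 5)
            + (2 / α * g) * (6 * M ^ 5 * ‖x - y‖)) := by
          rw [h0]
          have e1 := hSl b hb x y hx hy
          have e2 := hVn b hb x hx
          have e3 := hVl b hb x y hx hy
          have e4 := hS0 b hb y hy
          gcongr
          refine (norm_add_le _ _).trans ?_
          rw [norm_smul, norm_smul, Real.norm_eq_abs, Real.norm_eq_abs, abs_of_pos e4.1]
          gcongr
          exact e4.2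
      _ = m⁻¹ * (g * c1) * ‖x - y‖ := by rw [hc1]; ring
      _ ≤ m⁻¹ * (m / (2 * c1) * c1) * ‖x - y‖ := by gcongr
      _ = 1 / 2 * ‖x - y‖ := by field_simp
  have hfix : ∀ b, ∃ x, b ∈ Icc (-1 - η) (-1 + η) → ‖x‖ ≤ r ∧ Ψ b x = x := by
    intro b
    by_cases hb : b ∈ Icc (-1 - η) (-1 + η)
    · obtain ⟨x, hx, hx'⟩ := fix_ball hr0.le (Ψ b) (hΨr b hb) (hΨl b hb)
      exact ⟨x, fun _ => ⟨hx, hx'⟩⟩
    · exact ⟨0, fun h => absurd h hb⟩
  choose om hom using hfix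
  -- continuity
  have hucont : ∀ x, Continuous (fun b => u b x) := by
    intro x
    simp only [u]
    fun_prop
  have hDlc : ∀ x, ContinuousOn (fun b => Dl b x) (Icc (-1 - η) (-1 + η)) := by
    intro x
    simp only [Dl]
    refine ContinuousOn.sub (ContinuousOn.mul ?_ (hA1c.comp (hucont x)).continuousOn)
      (hA0c.comp (hucont x)).continuousOn
    exact continuousOn_inv₀.mono fun b hb => (hbI b hb).2.1
  have hΨc : ∀ x, ‖x‖ ≤ r → ContinuousOn (fun b => Ψ b x) (Icc (-1 - η) (-1 + η)) := by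
    intro x hx
    simp only [Ψ]
    refine hRc.comp_continuousOn ?_
    refine ContinuousOn.smul ?_ ?_
    · simp only [S]
      refine continuousOn_const.div (hDlc x) fun b hb => ?_
      have := hDl b hb x hx
      linarith
    · simp only [V]
      exact ((hGc.comp (hucont x)).sub ((hA0c.comp (hucont x)).smul continuous_const)).continuousOn
  have homc : ContinuousOn om (Icc (-1 - η) (-1 + η)) := by
    intro b' hb'
    have h1 := (hom b' hb')
    have h2 : ∀ b ∈ Icc (-1 - η) (-1 + η), ‖om b - om b'‖ ≤ 2 * ‖Ψ b (om b') - Ψ b' (om b')‖ := by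
      intro b hb
      have e1 := hΨl b hb (om b) (om b') (hom b hb).1 h1.1
      have e2 : om b - om b' = (Ψ b (om b) - Ψ b (om b')) + (Ψ b (om b') - Ψ b' (om b')) := by
        conv_lhs => rw [← (hom b hb).2, ← h1.2]
        rw [h1.2]
        abel
      have e3 : ‖om b - om b'‖ ≤ ‖Ψ b (om b) - Ψ b (om b')‖ + ‖Ψ b (om b') - Ψ b' (om b')‖ := by
        conv_lhs => rw [e2]
        exact norm_add_le _ _
      linarith
    have h3 : Tendsto (fun b => 2 * ‖Ψ b (om b') - Ψ b' (om b')‖)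
        (𝓝[Icc (-1 - η) (-1 + η)] b') (𝓝 0) := by
      have := ((hΨc (om b') h1.1) b' hb').sub_const (Ψ b' (om b'))
      have h4 := (this.norm).const_mul 2
      simpa using h4
    refine tendsto_iff_norm_sub_tendsto_zero.2 ?_
    refine squeeze_zero' (Eventually.of_forall fun b => norm_nonneg _) ?_ h3
    filter_upwards [self_mem_nhdsWithin] with b hb using h2 b hb
  have hubc : ContinuousOn (fun b => u b (om b)) (Icc (-1 - η) (-1 + η)) := by
    simp only [u]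
    refine ContinuousOn.add ?_ homc
    exact (continuous_const.add (continuous_id.smul continuous_const)).continuousOn
  have hsigc : ContinuousOn (fun b => S b (om b)) (Icc (-1 - η) (-1 + η)) := by
    simp only [S]
    refine continuousOn_const.div ?_ fun b hb => ?_
    · simp only [Dl]
      refine ContinuousOn.sub (ContinuousOn.mul ?_ (hA1c.comp_continuousOn hubc))
        (hA0c.comp_continuousOn hubc)
      exact continuousOn_inv₀.mono fun b hb => (hbI b hb).2.1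
    · have := hDl b hb (om b) (hom b hb).1
      linarith
  refine ⟨om, fun b => S b (om b), fun b => l0 - S b (om b) * A0 (u b (om b)), homc, hsigc,
    continuousOn_const.sub (hsigc.mul (hA0c.comp_continuousOn hubc)), ?_⟩
  intro b hb
  obtain ⟨hbη, hb0, hb3, hb2⟩ := hbI b hb
  obtain ⟨hx, hfx⟩ := hom b hb
  set x := om b with hxdef
  set s := S b x with hs
  have hsp := hS0 b hb x hx
  rw [← hs] at hsp
  obtain ⟨c, hc⟩ := hR1 (s • V b x)
  have hRx : R (s • V b x) = x := hfx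
  rw [hRx] at hc
  have ho0 : ⟪Z0, x⟫ = 0 := by
    have := hR2 (s • V b x) 0
    rw [hRx] at this
    simpa using this
  have ho1 : ⟪Z1, x⟫ = 0 := by
    have := hR2 (s • V b x) 1
    rw [hRx] at this
    simpa using this
  have hub : ‖u b x‖ ≤ 4 * M := hu b hb x hx
  have hC1 : 0 ≤ 8 * M ^ 5 / m := by positivity
  have hC2 : 0 ≤ 8 * M ^ 4 := by positivity
  have hC3 : 0 ≤ 2 / α := by positivity
  have hDlp : 0 < Dl b x := by have := hDl b hb x hx; linarith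
  have hsg : s * (b⁻¹ * A1 (u b x) - A0 (u b x)) = g := by
    rw [hs]; simp only [S]
    show g / Dl b x * Dl b x = g
    field_simp
  have hA0b : |A0 (u b x)| ≤ 4 * M ^ 4 := (hA0n _).trans (by
    calc M ^ 3 * ‖u b x‖ ≤ M ^ 3 * (4 * M) := by gcongr
      _ = _ := by ring)
  have hA1b : |b⁻¹ * A1 (u b x)| ≤ 8 * M ^ 4 := by
    rw [abs_mul]
    calc |b⁻¹| * |A1 (u b x)| ≤ 2 * (M ^ 3 * (4 * M)) := by
          gcongr
          exact (hA1n _).trans (by gcongr)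
      _ = _ := by ring
  refine ⟨hsp.1, ?_, ?_, hx.trans hr1, ho0, ho1, ?_, ?_, ?_⟩
  · calc s ≤ 2 / α * g := hsp.2
      _ ≤ _ := by
        apply mul_le_mul_of_nonneg_right _ hg0.le
        linarith
  · have h1 := hΨn b hb x hx
    have h2 : Ψ b x = x := hfx
    rw [h2] at h1
    refine h1.trans ?_
    apply mul_le_mul_of_nonneg_right _ hsp.1.le
    linarith
  · show |l0 - s * A0 (u b x) - l0| ≤ _
    rw [show l0 - s * A0 (u b x) - l0 = -(s * A0 (u b x)) by ring, abs_neg, abs_mul,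
      abs_of_pos hsp.1, mul_comm]
    apply mul_le_mul_of_nonneg_right _ hsp.1.le
    have : (0 : ℝ) ≤ M ^ 4 := by positivity
    linarith
  · show |l0 - s * A0 (u b x) - l1| ≤ _
    have e : l0 - s * A0 (u b x) - l1 = -(s * (b⁻¹ * A1 (u b x))) := by
      have : l1 = l0 + g := by rw [hgdef]; ring
      rw [this, ← hsg]; ring
    rw [e, abs_neg, abs_mul, abs_of_pos hsp.1, mul_comm]
    apply mul_le_mul_of_nonneg_right _ hsp.1.le
    linarith
  · -- the equation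
    show u b x - (l0 - s * A0 (u b x)) • K (u b x) = s • G (u b x)
    simp only [sub_apply, ContinuousLinearMap.id_apply,
        smul_apply, Fin.sum_univ_two, Matrix.cons_val_zero,
        Matrix.cons_val_one] at hc
    have hl0' : l0 ≠ 0 := hl0.ne'
    have hl1' : l1 ≠ 0 := (hl0.trans hl01).ne'
    have hKZ0 : K Z0 = l0⁻¹ • Z0 := by
      conv_rhs => rw [← hE0]
      rw [smul_smul, inv_mul_cancel₀ hl0', one_smul]
    have hKZ1 : K Z1 = l1⁻¹ • Z1 := by
      conv_rhs => rw [← hE1]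
      rw [smul_smul, inv_mul_cancel₀ hl1', one_smul]
    have hKx0 : ⟪K x, Z0⟫ = 0 := by
      rw [hKs, hKZ0, inner_smul_right, real_inner_comm, ho0, mul_zero]
    have hKx1 : ⟪K x, Z1⟫ = 0 := by
      rw [hKs, hKZ1, inner_smul_right, real_inner_comm, ho1, mul_zero]
    have hxx0 : ⟪x, Z0⟫ = 0 := by rw [real_inner_comm]; exact ho0
    have hxx1 : ⟪x, Z1⟫ = 0 := by rw [real_inner_comm]; exact ho1
    have hort' : ⟪Z1, Z0⟫ = 0 := by rw [real_inner_comm]; exact hort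
    have hc0 : c 0 * ‖Z0‖ ^ 2 = - (s * ⟪G (u b x), Z0⟫) := by
      have := congrArg (fun y => ⟪y, Z0⟫) hc
      simp only [V, inner_sub_left, inner_add_left, inner_smul_left, conj_trivial, hKx0, hxx0,
        hort', real_inner_self_eq_norm_sq] at this
      linarith
    have hc1' : c 1 * ‖Z1‖ ^ 2 = - (s * ⟪G (u b x), Z1⟫) := by
      have := congrArg (fun y => ⟪y, Z1⟫) hc
      simp only [V, inner_sub_left, inner_add_left, inner_smul_left, conj_trivial, hKx1, hxx1,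
        hort, real_inner_self_eq_norm_sq] at this
      linarith
    have hc0e : c 0 = - (s * A0 (u b x) * l0⁻¹) := by
      have : c 0 = (c 0 * ‖Z0‖ ^ 2) / ‖Z0‖ ^ 2 := by field_simp
      rw [this, hc0]; simp only [A0]; field_simp
    have hc1e : c 1 = - (s * A1 (u b x) * l1⁻¹) := by
      have : c 1 = (c 1 * ‖Z1‖ ^ 2) / ‖Z1‖ ^ 2 := by field_simp
      rw [this, hc1']; simp only [A1]; field_simp
    -- express `l1`
    have hl1e : l1 = l0 + s * (b⁻¹ * A1 (u b x) - A0 (u b x)) := by rw [hsg, hgdef]; ring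
    have hGx : s • G (u b x) = x - l0 • K x - (c 0 • Z0 + c 1 • Z1) + (s * A0 (u b x)) • K x := by
      rw [hc]; simp only [V, smul_sub, smul_smul]; abel
    rw [hGx]
    have hux : K (u b x) = l0⁻¹ • Z0 + (b * l1⁻¹) • Z1 + K x := by
      simp only [u, map_add, map_smul, hKZ0, hKZ1, smul_smul]
    rw [hux]
    have k0 : 1 - (l0 - s * A0 (u b x)) * l0⁻¹ = - c 0 := by
      rw [hc0e]; field_simp; ring
    have k1 : b - (l0 - s * A0 (u b x)) * (b * l1⁻¹) = - c 1 := by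
      have h2 : l0 - s * A0 (u b x) = l1 - s * (b⁻¹ * A1 (u b x)) := by
        conv_rhs => rw [hl1e]
        ring
      rw [hc1e, h2]
      field_simp
      ring
    have hfin : u b x - (l0 - s * A0 (u b x)) • (l0⁻¹ • Z0 + (b * l1⁻¹) • Z1 + K x)
        = (1 - (l0 - s * A0 (u b x)) * l0⁻¹) • Z0
          + (b - (l0 - s * A0 (u b x)) * (b * l1⁻¹)) • Z1
          + (x - (l0 - s * A0 (u b x)) • K x) := by
      simp only [u]
      module
    rw [hfin, k0, k1]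
    module

end Pool.Agent.helper13.BN
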