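import Pool.Agent.helper13.BN.Defs2
import Pool.Agent.helper23.BN.Basic
import Pool.Agent.helper58.BN.Solve
import Pool.Agent.helper41.BN.Pw
import Pool.Agent.helper22.BN.AxSp
import Pool.Agent.helper91.BN.TAx
import Pool.Agent.helper3.BN.Kop
import Pool.Agent.helper45.BN.Branch

set_option autoImplicit false

/-!
# MP_94a57f_an, module C6b: the truncated nonlinearity on the annulus
-/

open MeasureTheory Filter Topology Set Metric
open scoped ContDiff Gradient RealInnerProductSpace ENNReal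

noncomputable section

namespace Pool.Agent.helper13.BN

variable {N : ℕ}

/-! ### truncation -/

/-- the clamp to `[-K, K]` -/
def clampK (K u : ℝ) : ℝ := max (-K) (min K u)

/-- the truncated nonlinearity -/
def fK (N : ℕ) (K u : ℝ) : ℝ := nl N (clampK K u)

theorem clampK_le {K : ℝ} (hK : 0 ≤ K) (u : ℝ) : |clampK K u| ≤ K := by
  unfold clampK
  exact abs_le.2 ⟨le_max_left _ _, max_le (by linarith) (min_le_left _ _)⟩

theorem clampK_eq {K u : ℝ} (hu : |u| ≤ K) : clampK K u = u := by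
  obtain ⟨h1, h2⟩ := abs_le.1 hu
  unfold clampK
  rw [min_eq_right h2, max_eq_right h1]

theorem clampK_lip (K u v : ℝ) : |clampK K u - clampK K v| ≤ |u - v| := by
  unfold clampK
  refine (abs_max_sub_max_le_max _ _ _ _).trans ?_
  rw [sub_self, abs_zero]
  refine max_le (abs_nonneg _) ?_
  refine (abs_min_sub_min_le_max _ _ _ _).trans ?_
  rw [sub_self, abs_zero]
  exact max_le (abs_nonneg _) le_rfl

theorem clampK_zero {K : ℝ} (hK : 0 ≤ K) : clampK K 0 = 0 := clampK_eq (by simpa using hK)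

theorem clampK_abs_le {K : ℝ} (hK : 0 ≤ K) (u : ℝ) : |clampK K u| ≤ |u| := by
  have := clampK_lip K u 0
  rwa [clampK_zero hK, sub_zero, sub_zero] at this

theorem pm_pos (hN : 3 ≤ N) : 0 < pm N := by
  have : (3 : ℝ) ≤ N := by exact_mod_cast hN
  unfold pm
  exact div_pos (by norm_num) (by linarith)

theorem continuous_nl (hN : 3 ≤ N) (hN5 : N ≤ 5) : Continuous (nl N) :=
  continuous_iff_continuousAt.2 fun u => (hasDerivAt_nl hN hN5 u).continuousAt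

theorem nl_abs (u : ℝ) : |nl N u| = |u| ^ pm N * |u| := by
  unfold nl
  rw [abs_mul, abs_of_nonneg (Real.rpow_nonneg (abs_nonneg _) _)]

theorem continuous_clampK (K : ℝ) : Continuous (clampK K) := by
  unfold clampK; fun_prop

theorem continuous_fK (hN : 3 ≤ N) (hN5 : N ≤ 5) (K : ℝ) : Continuous (fK N K) :=
  (continuous_nl hN hN5).comp (continuous_clampK K)

theorem fK_le (hN : 3 ≤ N) {K : ℝ} (hK : 0 ≤ K) (u : ℝ) : |fK N K u| ≤ K ^ pm N * |u| := by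
  unfold fK
  rw [nl_abs]
  apply mul_le_mul _ (clampK_abs_le hK u) (abs_nonneg _) (Real.rpow_nonneg hK _)
  exact Real.rpow_le_rpow (abs_nonneg _) (clampK_le hK u) (pm_pos hN).le

theorem fK_eq {K u : ℝ} (hu : |u| ≤ K) : fK N K u = nl N u := by
  unfold fK; rw [clampK_eq hu]

theorem fK_zero (hN : 3 ≤ N) {K : ℝ} (hK : 0 ≤ K) : fK N K 0 = 0 := by
  have := fK_le hN hK 0
  simpa using this

theorem exists_fK_lip (hN : 3 ≤ N) (hN5 : N ≤ 5) {K : ℝ} (hK : 0 ≤ K) :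
    ∃ Λ : ℝ, 0 < Λ ∧ ∀ u v, |fK N K u - fK N K v| ≤ Λ * |u - v| := by
  obtain ⟨C, hC, h⟩ := nl_lip (N := N) hN hN5
  refine ⟨C * (2 * K ^ pm N) + 1, by have := Real.rpow_nonneg hK (pm N); positivity, ?_⟩
  intro u v
  unfold fK
  have h1 := h (clampK K u) (clampK K v)
  have h2 : |clampK K u| ^ pm N ≤ K ^ pm N :=
    Real.rpow_le_rpow (abs_nonneg _) (clampK_le hK u) (pm_pos hN).le
  have h3 : |clampK K v| ^ pm N ≤ K ^ pm N :=
    Real.rpow_le_rpow (abs_nonneg _) (clampK_le hK v) (pm_pos hN).le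
  have h0 : 0 ≤ K ^ pm N := Real.rpow_nonneg hK _
  calc _ ≤ C * (|clampK K u| ^ pm N + |clampK K v| ^ pm N) * |clampK K u - clampK K v| := h1
    _ ≤ C * (2 * K ^ pm N) * |u - v| := by
        apply mul_le_mul _ (clampK_lip K u v) (abs_nonneg _) (by positivity)
        apply mul_le_mul_of_nonneg_left _ hC.le
        linarith
    _ ≤ _ := by
        apply mul_le_mul_of_nonneg_right _ (abs_nonneg _)
        linarith

/-! ### the annulus -/

theorem ann_meas (N : ℕ) (ρ : ℝ) : MeasurableSet (ann N ρ) := by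
  unfold ann
  exact (measurableSet_lt measurable_const measurable_norm).inter
    (measurableSet_lt measurable_norm measurable_const)

theorem ann_isOpen (N : ℕ) (ρ : ℝ) : IsOpen (ann N ρ) := by
  unfold ann
  exact (isOpen_lt continuous_const continuous_norm).inter
    (isOpen_lt continuous_norm continuous_const)

theorem ann_sub_ball (N : ℕ) (ρ : ℝ) : ann N ρ ⊆ ball 0 1 := by
  intro x hx
  rw [mem_ball_zero_iff]
  exact hx.2

theorem td_ge (hN : 3 ≤ N) : 1 ≤ td N := by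
  have : (3 : ℝ) ≤ N := by exact_mod_cast hN
  unfold td
  rw [le_div_iff₀ (by linarith)]
  linarith

theorem td_le_ts (hN : 3 ≤ N) : td N ≤ ts N := by
  have : (3 : ℝ) ≤ N := by exact_mod_cast hN
  unfold td ts
  apply div_le_div_of_nonneg_left (by linarith) (by linarith) (by linarith)

theorem three_le_ts (hN : 3 ≤ N) (hN5 : N ≤ 5) : 3 ≤ ts N := by
  have : (3 : ℝ) ≤ N := by exact_mod_cast hN
  have h5 : (N : ℝ) ≤ 5 := by exact_mod_cast hN5
  unfold ts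
  rw [le_div_iff₀ (by linarith)]
  linarith

instance XS_complete (e : E N) (ρ : ℝ) : CompleteSpace (XS e ρ) := by
  unfold XS
  exact (Submodule.isClosed_topologicalClosure _).completeSpace_coe

theorem XS_DD (hN : 3 ≤ N) {e : E N} {ρ : ℝ} (w : XS e ρ) : (w : LV N) ∈ DD (ann N ρ) :=
  ((mem_XS hN).1 w.2).1

theorem XS_univ (hN : 3 ≤ N) {e : E N} {ρ : ℝ} (w : XS e ρ) :
    (w : LV N) ∈ DD (univ : Set (E N)) := DD_mono (subset_univ _) (XS_DD hN w)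

theorem XS_ball (hN : 3 ≤ N) {e : E N} {ρ : ℝ} (w : XS e ρ) :
    (w : LV N) ∈ DD (ball (0 : E N) 1) := DD_mono (ann_sub_ball N ρ) (XS_DD hN w)

theorem XS_ax (hN : 3 ≤ N) {e : E N} {ρ : ℝ} (w : XS e ρ) : Axial e (fn (w : LV N)) :=
  ((mem_XS hN).1 w.2).2

/-- Sobolev's inequality on the annuli, uniformly -/
theorem exists_sob_ann (hN : 3 ≤ N) {q : ℝ} (h1 : 1 ≤ q) (hq : q ≤ ts N) :
    ∃ S : ℝ, 0 < S ∧ ∀ (e : E N) (ρ : ℝ) (w : XS e ρ), Mq q (ann N ρ) (fn (w : LV N)) ∧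
      nq q (ann N ρ) (fn (w : LV N)) ≤ S * ‖w‖ := by
  obtain ⟨S, hS, h⟩ := exists_sob_q (N := N) hN 1 h1 hq
  refine ⟨S, hS, fun e ρ w => ?_⟩
  obtain ⟨h2, h3⟩ := h w (XS_ball hN w)
  exact ⟨Mq_univ58 _ h2, (nq_mono_set58 _ h2).trans h3⟩

theorem nq_mono_abs {q : ℝ} {Ω : Set (E N)} {f g : E N → ℝ} (hg : Mq q Ω g) {c : ℝ} (hc : 0 ≤ c)
    (h : ∀ᵐ x ∂(volume.restrict Ω), |f x| ≤ c * |g x|) : nq q Ω f ≤ c * nq q Ω g := by
  unfold nq
  have h1 := eLpNorm_le_mul_eLpNorm_of_ae_le_mul (f := f) (g := g) (c := c)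
    (μ := volume.restrict Ω) (by simpa only [Real.norm_eq_abs] using h) (ENNReal.ofReal q)
  have h2 := ENNReal.toReal_mono (ENNReal.mul_ne_top ENNReal.ofReal_ne_top hg.2.ne) h1
  rwa [ENNReal.toReal_mul, ENNReal.toReal_ofReal hc] at h2

theorem Mq_of_abs {q : ℝ} {Ω : Set (E N)} {f g : E N → ℝ} (hg : Mq q Ω g)
    (hf : AEStronglyMeasurable f (volume.restrict Ω)) {c : ℝ}
    (h : ∀ᵐ x ∂(volume.restrict Ω), |f x| ≤ c * |g x|) : Mq q Ω f :=
  hg.of_le_mul hf (by simpa only [Real.norm_eq_abs] using h)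

/-- axial functions composed with a function vanishing at `0` -/
theorem axial_ind (hN : 3 ≤ N) {e : E N} {ρ : ℝ} (w : XS e ρ) {f : ℝ → ℝ} (hf : Measurable f)
    (hf0 : f 0 = 0) : Axial e ((ann N ρ).indicator (fun x => f (fn (w : LV N) x))) := by
  have h1 : Axial e (fun x => f (fn (w : LV N) x)) :=
    axial_comp (XS_ax hN w) (XS_ax hN w) (k := fun z => f z.1) (hf.comp measurable_fst)
  refine axial_ae h1 ?_
  filter_upwards [fn_zero_off hN (XS_DD hN w)] with x hx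
  by_cases hxo : x ∈ ann N ρ
  · rw [indicator_of_mem hxo]
  · rw [indicator_of_notMem hxo, hx hxo, hf0]

/-! ### the two operators -/

theorem one_Mq (N : ℕ) (q ρ : ℝ) : Mq q (ann N ρ) (fun _ => (1 : ℝ)) := by
  have : IsFiniteMeasure (volume.restrict (ann N ρ)) :=
    ⟨by rw [Measure.restrict_apply_univ]; exact vol_lt_top58 (ann_sub_ball N ρ)⟩
  exact memLp_const 1

theorem one_axial (e : E N) (ρ : ℝ) : Axial e ((ann N ρ).indicator (fun _ => (1 : ℝ))) := by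
  classical
  refine ⟨fun z => if ρ < z.1 ∧ z.1 < 1 then 1 else 0, ?_, ?_⟩
  · refine Measurable.ite ?_ measurable_const measurable_const
    exact (measurableSet_lt measurable_const measurable_fst).inter
      (measurableSet_lt measurable_fst measurable_const)
  · refine Eventually.of_forall fun x => ?_
    simp only [indicator, ann, mem_ofPred_eq]

/-- `w ↦ T w` on `XS` -/
def KI (e : E N) (ρ : ℝ) : XS e ρ →L[ℝ] XS e ρ := Kop e ρ (fun _ => 1)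

theorem KI_coe (hN : 3 ≤ N) {ρ : ℝ} (hρ : 0 < ρ) (hρ1 : ρ < 1) {e : E N} (he : ‖e‖ = 1)
    (w : XS e ρ) : (KI e ρ w : LV N) = T (ann N ρ) (fn (w : LV N)) := by
  unfold KI
  rw [Kop_apply hN hρ hρ1 he (one_Mq N _ ρ) (one_axial e ρ) w]
  congr 1
  funext x
  rw [one_mul]

theorem KI_symm (hN : 3 ≤ N) {ρ : ℝ} (hρ : 0 < ρ) (hρ1 : ρ < 1) {e : E N} (he : ‖e‖ = 1)
    (w w' : XS e ρ) : ⟪KI e ρ w, w'⟫ = ⟪w, KI e ρ w'⟫ :=
  Kop_symm hN hρ hρ1 he (one_Mq N _ ρ) (one_axial e ρ) w w'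

theorem exists_KI_norm (hN : 3 ≤ N) : ∃ M : ℝ, 0 < M ∧ ∀ (ρ : ℝ), 0 < ρ → ρ < 1 → ∀ (e : E N),
    ‖e‖ = 1 → ∀ w : XS e ρ, ‖KI e ρ w‖ ≤ M * ‖w‖ := by
  obtain ⟨S, hS, h⟩ := exists_sob_ann (N := N) hN (td_ge hN) (td_le_ts hN)
  refine ⟨SS N * S, mul_pos SS_pos hS, fun ρ hρ hρ1 e he w => ?_⟩
  obtain ⟨h1, h2⟩ := h e ρ w
  have h3 := T_norm hN (ann_meas N ρ) h1
  rw [← KI_coe hN hρ hρ1 he w] at h3
  calc ‖KI e ρ w‖ = ‖(KI e ρ w : LV N)‖ := rfl
    _ ≤ SS N * nq (td N) (ann N ρ) (fn (w : LV N)) := h3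
    _ ≤ SS N * (S * ‖w‖) := by gcongr; exact SS_pos.le
    _ = _ := by ring

theorem fK_Mq (hN : 3 ≤ N) (hN5 : N ≤ 5) {e : E N} {ρ K q : ℝ} (hK : 0 ≤ K) (h1 : 1 ≤ q)
    (hq : q ≤ ts N) (w : XS e ρ) : Mq q (ann N ρ) (fun x => fK N K (fn (w : LV N) x)) := by
  obtain ⟨S, hS, h⟩ := exists_sob_ann (N := N) hN h1 hq
  refine Mq_of_abs (h e ρ w).1 ?_ (Eventually.of_forall fun x => fK_le hN hK _)
  exact (continuous_fK hN hN5 K).comp_aestronglyMeasurable (h e ρ w).1.1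

open Classical in
/-- `w ↦ T (fK w)` on `XS` -/
def GI (e : E N) (ρ K : ℝ) (w : XS e ρ) : XS e ρ :=
  if h : T (ann N ρ) (fun x => fK N K (fn (w : LV N) x)) ∈ XS e ρ then
    ⟨T (ann N ρ) (fun x => fK N K (fn (w : LV N) x)), h⟩ else 0

theorem GI_coe (hN : 3 ≤ N) (hN5 : N ≤ 5) {ρ K : ℝ} (hρ : 0 < ρ) (hρ1 : ρ < 1) (hK : 0 ≤ K)
    {e : E N} (he : ‖e‖ = 1) (w : XS e ρ) :
    (GI e ρ K w : LV N) = T (ann N ρ) (fun x => fK N K (fn (w : LV N) x)) := by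
  unfold GI
  rw [dif_pos (T_axial hN hρ hρ1 he (fK_Mq hN hN5 hK (td_ge hN) (td_le_ts hN) w)
    (axial_ind hN w (continuous_fK hN hN5 K).measurable (fK_zero hN hK)))]

theorem exists_GI_lip (hN : 3 ≤ N) (hN5 : N ≤ 5) {K : ℝ} (hK : 0 ≤ K) :
    ∃ M : ℝ, 0 < M ∧ ∀ (ρ : ℝ), 0 < ρ → ρ < 1 → ∀ (e : E N), ‖e‖ = 1 → ∀ w w' : XS e ρ,
      ‖GI e ρ K w - GI e ρ K w'‖ ≤ M * ‖w - w'‖ := by
  obtain ⟨S, hS, h⟩ := exists_sob_ann (N := N) hN (td_ge hN) (td_le_ts hN)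
  obtain ⟨Λ, hΛ, hL⟩ := exists_fK_lip (N := N) hN hN5 hK
  refine ⟨SS N * (Λ * S), mul_pos SS_pos (mul_pos hΛ hS), fun ρ hρ hρ1 e he w w' => ?_⟩
  have hw := fK_Mq hN hN5 (K := K) hK (td_ge hN) (td_le_ts hN) w
  have hw' := fK_Mq hN hN5 (K := K) hK (td_ge hN) (td_le_ts hN) w'
  have e1 : ((GI e ρ K w - GI e ρ K w' : XS e ρ) : LV N)
      = T (ann N ρ) (fun x => fK N K (fn (w : LV N) x) - fK N K (fn (w' : LV N) x)) := by
    rw [T_sub hN (ann_meas N ρ) hw hw', ← GI_coe hN hN5 hρ hρ1 hK he, ← GI_coe hN hN5 hρ hρ1 hK he]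
    rfl
  have h3 := T_norm hN (ann_meas N ρ) (hw.sub hw')
  obtain ⟨h4, h5⟩ := h e ρ (w - w')
  have h6 : nq (td N) (ann N ρ)
      (fun x => fK N K (fn (w : LV N) x) - fK N K (fn (w' : LV N) x))
      ≤ Λ * nq (td N) (ann N ρ) (fn ((w - w' : XS e ρ) : LV N)) := by
    refine nq_mono_abs h4 hΛ.le ?_
    have h7 := fn_sub hN (XS_univ hN w) (XS_univ hN w')
    filter_upwards [ae_restrict_of_ae h7] with x hx
    have h8 : fn ((w - w' : XS e ρ) : LV N) x = fn (w : LV N) x - fn (w' : LV N) x := hx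
    rw [h8]
    exact hL _ _
  calc ‖GI e ρ K w - GI e ρ K w'‖ = ‖((GI e ρ K w - GI e ρ K w' : XS e ρ) : LV N)‖ := rfl
    _ ≤ SS N * nq (td N) (ann N ρ)
        (fun x => fK N K (fn (w : LV N) x) - fK N K (fn (w' : LV N) x)) := by
        rw [e1]; exact h3
    _ ≤ SS N * (Λ * (S * ‖w - w'‖)) := by
        have := (SS_pos (N := N)).le
        gcongr
        exact h6.trans (by gcongr)
    _ = _ := by ring

theorem GI_zero (hN : 3 ≤ N) (hN5 : N ≤ 5) {ρ K : ℝ} (hρ : 0 < ρ) (hρ1 : ρ < 1) (hK : 0 ≤ K)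
    {e : E N} (he : ‖e‖ = 1) : GI e ρ K 0 = 0 := by
  apply Subtype.ext
  rw [GI_coe hN hN5 hρ hρ1 hK he]
  have h0 : T (ann N ρ) (fun x => fK N K (fn ((0 : XS e ρ) : LV N) x))
      = T (ann N ρ) (fun x => (0 : ℝ) * (1 : ℝ)) := by
    refine T_congr (ann_meas N ρ) ?_
    filter_upwards [fn_zero (N := N) hN] with x hx _
    have h8 : fn ((0 : XS e ρ) : LV N) x = 0 := hx
    rw [h8, fK_zero hN hK, zero_mul]
  rw [h0, T_smul hN (ann_meas N ρ) 0 (one_Mq N _ ρ), zero_smul]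
  rfl

/-- pairing -/
theorem GI_inner (hN : 3 ≤ N) (hN5 : N ≤ 5) {ρ K : ℝ} (hρ : 0 < ρ) (hρ1 : ρ < 1) (hK : 0 ≤ K)
    {e : E N} (he : ‖e‖ = 1) (w w' : XS e ρ) :
    ⟪GI e ρ K w, w'⟫ = ∫ x in ann N ρ, fK N K (fn (w : LV N) x) * fn (w' : LV N) x := by
  have hw := fK_Mq hN hN5 (K := K) hK (td_ge hN) (td_le_ts hN) w
  have h1 := (weak_pair hN (ann_meas N ρ) hw (T_weak hN (ann_meas N ρ) hw) (XS_DD hN w')).2
  rw [← h1, ← GI_coe hN hN5 hρ hρ1 hK he]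
  rfl

end Pool.Agent.helper13.BN
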